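import Pool.Agent.W_MP_458e77_lc.AtmDef

/-!
PARITY is in ALOGTIME.
-/

namespace Pool.Agent.W_MP_458e77_lc

/-- states of the machine -/
inductive PQ
  | P (b : Bool)
  | T (b : Bool)
  | C (b0 b1 : Bool)
  | V (b : Bool)
  | R
deriving DecidableEq, Fintype

/-- transitions of the machine -/
def pnext : PQ → (Fin 1 → Option Bool) → Option Bool →
    PQ → (Fin 1 → Option Bool) → (Fin 1 → SignType) → Prop
  | .P b, _, _, q', w, mv => q' = .T b ∧ w = (fun _ => some true) ∧ mv = fun _ => 0
  | .T b, a, s, q', w, mv =>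
      (s = none ∧ q' = .V b ∧ w = (fun _ => none) ∧ mv = fun _ => 0) ∨
      (s ≠ none ∧ ∃ b0 b1, (b0 ^^ b1) = b ∧ q' = .C b0 b1 ∧ w = a ∧ mv = fun _ => 0)
  | .C b0 b1, _, _, q', w, mv =>
      (q' = .P b0 ∧ w = (fun _ => some false) ∧ mv = fun _ => 1) ∨
      (q' = .P b1 ∧ w = (fun _ => some true) ∧ mv = fun _ => 1)
  | .V b, a, s, q', w, mv => s.getD false ≠ b ∧ q' = .R ∧ w = a ∧ mv = fun _ => 0
  | .R, _, _, _, _, _ => False

/-- universal states -/
def puniv : PQ → Prop
  | .C _ _ => True
  | .V _ => True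
  | _ => False

/-- the machine -/
def PM : ATM where
  Q := PQ
  Γ := Option Bool
  finQ := Finite.of_fintype _
  finΓ := Finite.of_fintype _
  tapes := 0
  blank := none
  one := some true
  blank_ne_one := by simp
  start := .P true
  universal := puniv
  next := pnext

instance : Subsingleton (Fin (PM.tapes + 1)) := inferInstanceAs (Subsingleton (Fin 1))

/-- configurations of the machine -/
def pc (q : PQ) (K : ℤ) (T : ℤ → Option Bool) : Cfg PM := ⟨q, fun _ => K, fun _ => T⟩

theorem pc_eta (c : Cfg PM) : c = pc c.q (c.head 0) (c.tape 0) := by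
  ext i
  · rfl
  · have : i = 0 := Subsingleton.elim _ _
    rw [this]; rfl
  · have : i = 0 := Subsingleton.elim _ _
    rw [this]; rfl

/-- value of the index tape -/
noncomputable def ad (T : ℤ → Option Bool) : ℕ := ∑ᶠ i : ℕ, if T i = some true then 2 ^ i else 0

theorem addr_pc (q : PQ) (K : ℤ) (T : ℤ → Option Bool) : (pc q K T).addr = ad T := by
  unfold Cfg.addr ad
  congr 1
  funext i
  congr 1

theorem step_iff (x : List Bool) (q : PQ) (K : ℤ) (T : ℤ → Option Bool) (c' : Cfg PM) :
    Step x (pc q K T) c' ↔ ∃ (w : Fin 1 → Option Bool) (mv : Fin 1 → SignType),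
      pnext q (fun _ => T K) x[ad T]? c'.q w mv ∧
      c' = pc c'.q (K + (mv 0 : ℤ)) (Function.update T K (w 0)) := by
  unfold Step
  rw [addr_pc]
  constructor
  · rintro ⟨w, mv, h1, h2, h3⟩
    refine ⟨w, mv, h1, ?_⟩
    conv_lhs => rw [pc_eta c']
    rw [h2, h3]
    rfl
  · rintro ⟨w, mv, h1, h2⟩
    refine ⟨w, mv, h1, ?_, ?_⟩
    · rw [h2]
      funext i
      have : i = 0 := Subsingleton.elim _ _
      rw [this]; rfl
    · rw [h2]
      funext i
      have : i = 0 := Subsingleton.elim _ _
      rw [this]; rfl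

theorem step_P (x : List Bool) (b : Bool) (K : ℤ) (T : ℤ → Option Bool) (c' : Cfg PM) :
    Step x (pc (.P b) K T) c' ↔ c' = pc (.T b) K (Function.update T K (some true)) := by
  rw [step_iff]
  constructor
  · rintro ⟨w, mv, ⟨h1, h2, h3⟩, h4⟩
    rw [h4, h1, h2, h3]
    simp
  · rintro rfl
    refine ⟨fun _ => some true, fun _ => 0, ⟨rfl, rfl, rfl⟩, ?_⟩
    simp [pc]

theorem step_T (x : List Bool) (b : Bool) (K : ℤ) (T : ℤ → Option Bool) (c' : Cfg PM) :
    Step x (pc (.T b) K T) c' ↔
      (x[ad T]? = none ∧ c' = pc (.V b) K (Function.update T K none)) ∨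
      (x[ad T]? ≠ none ∧ ∃ b0 b1, (b0 ^^ b1) = b ∧ c' = pc (.C b0 b1) K T) := by
  rw [step_iff]
  constructor
  · rintro ⟨w, mv, h | h, h4⟩
    · obtain ⟨h0, h1, h2, h3⟩ := h
      left
      refine ⟨h0, ?_⟩
      rw [h4, h1, h2, h3]
      simp
    · obtain ⟨h0, b0, b1, hb, h1, h2, h3⟩ := h
      right
      refine ⟨h0, b0, b1, hb, ?_⟩
      rw [h4, h1, h2, h3]
      simp
  · rintro (⟨h0, rfl⟩ | ⟨h0, b0, b1, hb, rfl⟩)
    · refine ⟨fun _ => none, fun _ => 0, Or.inl ⟨h0, rfl, rfl, rfl⟩, ?_⟩
      simp [pc]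
    · refine ⟨fun _ => T K, fun _ => 0, Or.inr ⟨h0, b0, b1, hb, rfl, rfl, rfl⟩, ?_⟩
      simp [pc]

theorem step_C (x : List Bool) (b0 b1 : Bool) (K : ℤ) (T : ℤ → Option Bool) (c' : Cfg PM) :
    Step x (pc (.C b0 b1) K T) c' ↔
      c' = pc (.P b0) (K + 1) (Function.update T K (some false)) ∨
      c' = pc (.P b1) (K + 1) (Function.update T K (some true)) := by
  rw [step_iff]
  constructor
  · rintro ⟨w, mv, h | h, h4⟩
    · obtain ⟨h1, h2, h3⟩ := h
      left
      rw [h4, h1, h2, h3]
      simp
    · obtain ⟨h1, h2, h3⟩ := h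
      right
      rw [h4, h1, h2, h3]
      simp
  · rintro (rfl | rfl)
    · refine ⟨fun _ => some false, fun _ => 1, Or.inl ⟨rfl, rfl, rfl⟩, ?_⟩
      simp [pc]
    · refine ⟨fun _ => some true, fun _ => 1, Or.inr ⟨rfl, rfl, rfl⟩, ?_⟩
      simp [pc]

theorem step_V (x : List Bool) (b : Bool) (K : ℤ) (T : ℤ → Option Bool) (c' : Cfg PM) :
    Step x (pc (.V b) K T) c' ↔ (x[ad T]?).getD false ≠ b ∧ c' = pc .R K T := by
  rw [step_iff]
  constructor
  · rintro ⟨w, mv, ⟨h0, h1, h2, h3⟩, h4⟩
    refine ⟨h0, ?_⟩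
    rw [h4, h1, h2, h3]
    simp
  · rintro ⟨h0, rfl⟩
    refine ⟨fun _ => T K, fun _ => 0, ⟨h0, rfl, rfl, rfl⟩, ?_⟩
    simp [pc]

theorem step_R (x : List Bool) (K : ℤ) (T : ℤ → Option Bool) (c' : Cfg PM) :
    ¬ Step x (pc .R K T) c' := by
  rw [step_iff]
  rintro ⟨w, mv, h, h4⟩
  exact h

/-! ### the address -/

theorem ad_eq {T : ℤ → Option Bool} {K : ℕ} (hT : ∀ i : ℕ, K ≤ i → T i = none) :
    ad T = ∑ i ∈ Finset.range K, if T i = some true then 2 ^ i else 0 := by
  unfold ad
  apply finsum_eq_sum_of_support_subset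
  intro i hi
  rw [Function.mem_support] at hi
  rw [Finset.coe_range, Set.mem_Iio]
  by_contra hlt
  push Not at hlt
  rw [hT i hlt] at hi
  simp at hi

theorem ad_lt {T : ℤ → Option Bool} {K : ℕ} (hT : ∀ i : ℕ, K ≤ i → T i = none) :
    ad T < 2 ^ K := by
  rw [ad_eq hT]
  have h1 : ∑ i ∈ Finset.range K, (if T i = some true then 2 ^ i else 0) ≤
      ∑ i ∈ Finset.range K, 2 ^ i := by
    apply Finset.sum_le_sum
    intro i _
    split_ifs
    · exact le_refl _
    · exact Nat.zero_le _
  have h2 := Nat.geomSum_eq (le_refl 2) K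
  have h3 : 1 ≤ 2 ^ K := Nat.one_le_two_pow
  simp only [Nat.add_one_sub_one, Nat.div_one] at h2
  omega

theorem blank_update {T : ℤ → Option Bool} {K : ℕ} (hT : ∀ i : ℕ, K ≤ i → T i = none)
    (s : Option Bool) : ∀ i : ℕ, K + 1 ≤ i → Function.update T (K : ℤ) s i = none := by
  intro i hi
  rw [Function.update_of_ne (by
    intro h
    have : i = K := by exact_mod_cast h
    omega)]
  exact hT i (by omega)

theorem ad_update {T : ℤ → Option Bool} {K : ℕ} (hT : ∀ i : ℕ, K ≤ i → T i = none)
    (s : Option Bool) :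
    ad (Function.update T (K : ℤ) s) = ad T + if s = some true then 2 ^ K else 0 := by
  rw [ad_eq (blank_update hT s), ad_eq hT, Finset.sum_range_succ, Function.update_self]
  congr 1
  apply Finset.sum_congr rfl
  intro i hi
  rw [Finset.mem_range] at hi
  rw [Function.update_of_ne (by
    intro h
    have : i = K := by exact_mod_cast h
    omega)]

theorem update_none_self {T : ℤ → Option Bool} {K : ℕ} (hT : ∀ i : ℕ, K ≤ i → T i = none)
    (s : Option Bool) : Function.update (Function.update T (K : ℤ) s) (K : ℤ) none = T := by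
  rw [Function.update_idem]
  conv_rhs => rw [← Function.update_eq_self (K : ℤ) T]
  rw [hT K (le_refl K)]

/-! ### parities of residue classes -/

/-- number of ones at the positions congruent to `r` modulo `2 ^ K` -/
def rc (x : List Bool) (r K : ℕ) : ℕ :=
  ((Finset.range x.length).filter fun i => i % 2 ^ K = r ∧ x[i]? = some true).card

/-- its parity -/
def rp (x : List Bool) (r K : ℕ) : Bool := decide (Odd (rc x r K))

theorem rc_split (x : List Bool) {r K : ℕ} (hr : r < 2 ^ K) :
    rc x r K = rc x r (K + 1) + rc x (r + 2 ^ K) (K + 1) := by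
  unfold rc
  rw [← Finset.card_union_of_disjoint]
  · congr 1
    ext i
    rw [Finset.mem_union, Finset.mem_filter, Finset.mem_filter, Finset.mem_filter]
    have key : i % 2 ^ K = r ↔ (i % 2 ^ (K + 1) = r ∨ i % 2 ^ (K + 1) = r + 2 ^ K) := by
      have h1 : i % 2 ^ (K + 1) % 2 ^ K = i % 2 ^ K :=
        Nat.mod_mod_of_dvd _ (pow_dvd_pow 2 (by omega))
      have h2 : i % 2 ^ (K + 1) < 2 ^ (K + 1) := Nat.mod_lt _ (by positivity)
      rw [pow_succ] at h2 h1 ⊢
      generalize i % (2 ^ K * 2) = m at *
      rw [← h1]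
      by_cases hm : m < 2 ^ K
      · rw [Nat.mod_eq_of_lt hm]
        omega
      · have h3 : m % 2 ^ K = m - 2 ^ K := by
          rw [Nat.mod_eq_sub_mod (by omega), Nat.mod_eq_of_lt (by omega)]
        rw [h3]
        omega
    rw [key]
    tauto
  · rw [Finset.disjoint_left]
    intro i h1 h2
    rw [Finset.mem_filter] at h1 h2
    have : 0 < 2 ^ K := by positivity
    omega

theorem rp_split (x : List Bool) {r K : ℕ} (hr : r < 2 ^ K) :
    rp x r K = (rp x r (K + 1) ^^ rp x (r + 2 ^ K) (K + 1)) := by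
  unfold rp
  rw [rc_split x hr]
  by_cases h1 : Odd (rc x r (K + 1)) <;> by_cases h2 : Odd (rc x (r + 2 ^ K) (K + 1)) <;>
    simp [h1, h2, Nat.odd_add] <;> simpa [Nat.not_odd_iff_even] using h2

theorem rp_single (x : List Bool) {r K : ℕ} (hr : r < 2 ^ K) (h : x.length ≤ r + 2 ^ K) :
    rp x r K = (x[r]?).getD false := by
  unfold rp rc
  have key : ((Finset.range x.length).filter fun i => i % 2 ^ K = r ∧ x[i]? = some true) =
      if x[r]? = some true then {r} else ∅ := by
    ext i
    rw [Finset.mem_filter, Finset.mem_range]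
    constructor
    · rintro ⟨h1, h2, h3⟩
      have h4 : i = r := by
        by_cases hi : i < 2 ^ K
        · rw [Nat.mod_eq_of_lt hi] at h2
          exact h2
        · exfalso
          have := Nat.mod_add_div i (2 ^ K)
          have h5 : 1 ≤ i / 2 ^ K := (Nat.one_le_div_iff (by positivity)).2 (by omega)
          have h6 : 2 ^ K * 1 ≤ 2 ^ K * (i / 2 ^ K) := Nat.mul_le_mul_left _ h5
          omega
      subst h4
      rw [if_pos h3, Finset.mem_singleton]
    · intro hi
      by_cases h3 : x[r]? = some true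
      · rw [if_pos h3, Finset.mem_singleton] at hi
        subst hi
        obtain ⟨h4, _⟩ := List.getElem?_eq_some_iff.1 h3
        exact ⟨h4, Nat.mod_eq_of_lt hr, h3⟩
      · rw [if_neg h3] at hi
        exact absurd hi (Finset.notMem_empty _)
  rw [key]
  rcases hx : x[r]? with _ | b
  · simp
  · rcases b with _ | _ <;> simp

theorem rc_zero (x : List Bool) : rc x 0 0 = x.count true := by
  unfold rc
  induction x using List.reverseRecOn with
  | nil => rfl
  | append_singleton l a ih =>
    rw [List.count_append, List.length_append, List.length_singleton, Finset.range_add_one,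
      Finset.filter_insert, ← ih]
    have h1 : ((Finset.range l.length).filter fun i => i % 2 ^ 0 = 0 ∧
        (l ++ [a])[i]? = some true) = ((Finset.range l.length).filter fun i => i % 2 ^ 0 = 0 ∧
        l[i]? = some true) := by
      apply Finset.filter_congr
      intro i hi
      rw [Finset.mem_range] at hi
      rw [List.getElem?_append_left hi]
    rw [h1]
    have h2 : (l ++ [a])[l.length]? = some a := by simp
    rw [h2]
    rcases a with _ | _
    · simp
    · rw [if_pos ⟨by simp [Nat.mod_one], rfl⟩, Finset.card_insert_of_notMem (by simp)]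
      simp

/-! ### the machine is correct -/

theorem accepts_iff_P (x : List Bool) : ∀ (t : ℕ) (b : Bool) (K : ℕ) (T : ℤ → Option Bool),
    (∀ i : ℕ, K ≤ i → T i = none) → Accepts x t (pc (.P b) K T) → rp x (ad T) K = b := by
  intro t
  induction t using Nat.strong_induction_on with
  | _ t ih =>
    intro b K T hT h
    -- P
    match t, ih, h with
    | t + 1, ih, h =>
    rcases h with ⟨h0, _⟩ | ⟨_, c', hs, h⟩
    · exact absurd h0 (fun h => h)
    rw [step_P] at hs
    subst hs
    -- T
    match t, ih, h with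
    | t + 1, ih, h =>
    rcases h with ⟨h0, _⟩ | ⟨_, c', hs, h⟩
    · exact absurd h0 (fun h => h)
    rw [step_T, ad_update hT, if_pos rfl] at hs
    rcases hs with ⟨hn, rfl⟩ | ⟨hn, b0, b1, hb, rfl⟩
    · -- V
      rw [update_none_self hT] at h
      match t, ih, h with
      | t + 1, ih, h =>
      rcases h with ⟨_, h⟩ | ⟨h0, _⟩
      · rw [rp_single x (ad_lt hT) (by
          rw [List.getElem?_eq_none_iff] at hn
          exact hn)]
        by_contra hne
        have h2 := h (pc .R K T) ((step_V x b K T _).2 ⟨hne, rfl⟩)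
        match t, h2 with
        | t + 1, h2 =>
        rcases h2 with ⟨h0, _⟩ | ⟨_, c', hs, _⟩
        · exact h0
        · exact step_R x K T c' hs
      · exact absurd trivial h0
    · -- C
      match t, ih, h with
      | t + 1, ih, h =>
      rcases h with ⟨_, h⟩ | ⟨h0, _⟩
      · have e1 := h _ ((step_C x b0 b1 K _ _).2 (Or.inl rfl))
        have e2 := h _ ((step_C x b0 b1 K _ _).2 (Or.inr rfl))
        rw [Function.update_idem] at e1 e2
        have f1 := ih t (by omega) b0 (K + 1) _ (blank_update hT (some false)) (by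
          rw [Nat.cast_add, Nat.cast_one]; exact e1)
        have f2 := ih t (by omega) b1 (K + 1) _ (blank_update hT (some true)) (by
          rw [Nat.cast_add, Nat.cast_one]; exact e2)
        rw [ad_update hT, if_neg (by simp), add_zero] at f1
        rw [ad_update hT, if_pos rfl] at f2
        rw [rp_split x (ad_lt hT), f1, f2, hb]
      · exact absurd trivial h0

theorem accepts_mono (x : List Bool) : ∀ (t t' : ℕ) (c : Cfg PM), t ≤ t' → Accepts x t c →
    Accepts x t' c := by
  intro t
  induction t with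
  | zero => intro t' c _ h; exact absurd h (fun h => h)
  | succ t ih =>
    intro t' c ht h
    match t', ht with
    | t' + 1, ht =>
    rcases h with ⟨h0, h⟩ | ⟨h0, c', hs, h⟩
    · exact Or.inl ⟨h0, fun c' hs => ih t' c' (by omega) (h c' hs)⟩
    · exact Or.inr ⟨h0, c', hs, ih t' c' (by omega) h⟩

theorem accepts_of_rp (x : List Bool) : ∀ (m K : ℕ), x.length ≤ 2 ^ (K + m) →
    ∀ (T : ℤ → Option Bool), (∀ i : ℕ, K ≤ i → T i = none) →
    Accepts x (3 * m + 3) (pc (.P (rp x (ad T) K)) K T) := by
  intro m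
  induction m with
  | zero =>
    intro K hK T hT
    refine Or.inr ⟨fun h => h, _, (step_P x _ K T _).2 rfl, ?_⟩
    refine Or.inr ⟨fun h => h, _, (step_T x _ K _ _).2 (Or.inl ⟨?_, rfl⟩), ?_⟩
    · rw [ad_update hT, if_pos rfl, List.getElem?_eq_none_iff]
      rw [Nat.add_zero] at hK
      omega
    · rw [update_none_self hT]
      refine Or.inl ⟨trivial, fun c' hs => ?_⟩
      rw [step_V] at hs
      exfalso
      apply hs.1
      rw [rp_single x (ad_lt hT) (by rw [Nat.add_zero] at hK; omega)]
  | succ m ih =>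
    intro K hK T hT
    by_cases hn : x.length ≤ ad T + 2 ^ K
    · apply accepts_mono x 3 _ _ (by omega)
      refine Or.inr ⟨fun h => h, _, (step_P x _ K T _).2 rfl, ?_⟩
      refine Or.inr ⟨fun h => h, _, (step_T x _ K _ _).2 (Or.inl ⟨?_, rfl⟩), ?_⟩
      · rw [ad_update hT, if_pos rfl, List.getElem?_eq_none_iff]
        exact hn
      · rw [update_none_self hT]
        refine Or.inl ⟨trivial, fun c' hs => ?_⟩
        rw [step_V] at hs
        exfalso
        apply hs.1
        rw [rp_single x (ad_lt hT) hn]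
    · have e : 3 * (m + 1) + 3 = (3 * m + 3) + 1 + 1 + 1 := by ring
      rw [e]
      refine Or.inr ⟨fun h => h, _, (step_P x _ K T _).2 rfl, ?_⟩
      refine Or.inr ⟨fun h => h, _, (step_T x _ K _ _).2 (Or.inr ⟨?_, rp x (ad T) (K + 1),
        rp x (ad T + 2 ^ K) (K + 1), (rp_split x (ad_lt hT)).symm, rfl⟩), ?_⟩
      · rw [ad_update hT, if_pos rfl, ne_eq, List.getElem?_eq_none_iff]
        exact hn
      · refine Or.inl ⟨trivial, fun c' hs => ?_⟩
        rw [step_C, Function.update_idem, Function.update_idem] at hs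
        rcases hs with rfl | rfl
        · have h1 := ih (K + 1) (by rw [show K + 1 + m = K + (m + 1) from by ring]; exact hK)
            _ (blank_update hT (some false))
          rw [ad_update hT, if_neg (by simp), add_zero, Nat.cast_add, Nat.cast_one] at h1
          exact h1
        · have h1 := ih (K + 1) (by rw [show K + 1 + m = K + (m + 1) from by ring]; exact hK)
            _ (blank_update hT (some true))
          rw [ad_update hT, if_pos rfl, Nat.cast_add, Nat.cast_one] at h1
          exact h1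

theorem halts_mono (x : List Bool) : ∀ (t t' : ℕ) (c : Cfg PM), t ≤ t' → Halts x t c →
    Halts x t' c := by
  intro t
  induction t with
  | zero =>
    intro t' c _ h
    cases t' with
    | zero => exact h
    | succ t' => exact fun c' hs => absurd hs (h c')
  | succ t ih =>
    intro t' c ht h
    match t', ht with
    | t' + 1, ht => exact fun c' hs => ih t' c' (by omega) (h c' hs)

theorem halts_P (x : List Bool) : ∀ (m K : ℕ), x.length ≤ 2 ^ (K + m) →
    ∀ (b : Bool) (T : ℤ → Option Bool), (∀ i : ℕ, K ≤ i → T i = none) →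
    Halts x (3 * m + 3) (pc (.P b) K T) := by
  intro m
  have hV : ∀ (b : Bool) (K : ℕ) (T : ℤ → Option Bool), Halts x 1 (pc (.V b) K T) := by
    intro b K T c' hs
    rw [step_V] at hs
    obtain ⟨_, rfl⟩ := hs
    intro c'' hs
    exact step_R x K T c'' hs
  induction m with
  | zero =>
    intro K hK b T hT c' hs
    rw [step_P] at hs
    subst hs
    intro c' hs
    rw [step_T, ad_update hT, if_pos rfl] at hs
    rcases hs with ⟨_, rfl⟩ | ⟨hn, _⟩
    · exact hV _ _ _
    · exfalso
      apply hn
      rw [List.getElem?_eq_none_iff]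
      rw [Nat.add_zero] at hK
      omega
  | succ m ih =>
    intro K hK b T hT
    have e : 3 * (m + 1) + 3 = (3 * m + 3) + 1 + 1 + 1 := by ring
    rw [e]
    intro c' hs
    rw [step_P] at hs
    subst hs
    intro c' hs
    rw [step_T] at hs
    rcases hs with ⟨_, rfl⟩ | ⟨_, b0, b1, _, rfl⟩
    · exact halts_mono x 1 _ _ (by omega) (hV _ _ _)
    · intro c' hs
      rw [step_C, Function.update_idem, Function.update_idem] at hs
      rcases hs with rfl | rfl
      · have h1 := ih (K + 1) (by rw [show K + 1 + m = K + (m + 1) from by ring]; exact hK)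
            b0 _ (blank_update hT (some false))
        rw [Nat.cast_add, Nat.cast_one] at h1
        exact h1
      · have h1 := ih (K + 1) (by rw [show K + 1 + m = K + (m + 1) from by ring]; exact hK)
            b1 _ (blank_update hT (some true))
        rw [Nat.cast_add, Nat.cast_one] at h1
        exact h1

/-- **PARITY is in ALOGTIME.** -/
theorem parity_alogtime : Alogtime Parity := by
  refine ⟨PM, 6, fun x => ?_⟩
  have hinit : initial PM = pc (.P true) ((0 : ℕ) : ℤ) (fun _ => none) := by
    unfold initial pc PM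
    simp
  have hblank : ∀ i : ℕ, 0 ≤ i → (fun _ : ℤ => (none : Option Bool)) i = none := fun _ _ => rfl
  have had : ad (fun _ => none) = 0 := by
    rw [ad_eq hblank]
    simp
  have hlen : x.length ≤ 2 ^ (0 + (Nat.log 2 x.length + 1)) := by
    rw [Nat.zero_add]
    exact (Nat.lt_pow_succ_log_self (by norm_num) _).le
  have hmem : x ∈ Parity ↔ rp x 0 0 = true := by
    unfold rp
    rw [rc_zero, decide_eq_true_iff]
    rfl
  rw [hinit]
  refine ⟨halts_mono x _ _ _ (by omega) (halts_P x _ 0 hlen true _ hblank), ?_⟩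
  rw [hmem]
  constructor
  · intro h
    have h1 := accepts_of_rp x _ 0 hlen (fun _ => none) hblank
    rw [had, h] at h1
    exact ⟨_, h1⟩
  · rintro ⟨t, ht⟩
    have h1 := accepts_iff_P x t true 0 _ hblank ht
    rw [had] at h1
    exact h1

end Pool.Agent.W_MP_458e77_lc
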