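import Mathlib

/-!
The permutations of the configuration space generating the group.
-/

namespace Pool.Agent.W_MP_458e77_lc

open Function

variable {J : ℕ → Type} [∀ k, DecidableEq (J k)]

/-- configurations -/
abbrev Conf (J : ℕ → Type) := ∀ k, J k → ZMod 3

set_option linter.unusedSectionVars false

variable (c : ∀ k, Option (J (k + 1)) → J k → ZMod 3)

open Classical in
/-- partial inverse of the code `c k` -/
noncomputable def decode (k : ℕ) (q : J k → ZMod 3) : Option (Option (J (k + 1))) :=
  if h : ∃ γ, c k γ = q then some h.choose else none

/-- update the coordinate after `m` -/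
noncomputable def upd (m : ℕ) (ε : ZMod 3) (u : Conf J) : Conf J :=
  match decode c m (u m) with
  | some (some j) => update u (m + 1) (u (m + 1) + Pi.single j ε)
  | some none => u
  | none => u

open Classical in
/-- the directed generator of level `k` -/
noncomputable def bact (k : ℕ) (ε : ZMod 3) (u : Conf J) : Conf J :=
  if h : ∃ m, k ≤ m ∧ decode c m (u m) ≠ some none then upd c (Nat.find h) ε u else u

/-- the letters of level `k` -/
noncomputable def act (k : ℕ) : Option (J k) → ZMod 3 → Conf J → Conf J
  | some j, ε, u => update u k (u k + Pi.single j ε)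
  | none, ε, u => bact c k ε u

variable {c}

theorem decode_eq_some (hc : ∀ k, Injective (c k)) {k : ℕ} {q : J k → ZMod 3}
    {γ : Option (J (k + 1))} : decode c k q = some γ ↔ c k γ = q := by
  unfold decode
  constructor
  · intro h
    split_ifs at h with h1
    · rw [← Option.some.inj h]
      exact h1.choose_spec
  · intro h
    have h1 : ∃ γ, c k γ = q := ⟨γ, h⟩
    rw [dif_pos h1]
    congr 1
    exact hc k (h1.choose_spec.trans h.symm)

theorem upd_some {m : ℕ} {ε : ZMod 3} {u : Conf J} {j : J (m + 1)}
    (h : decode c m (u m) = some (some j)) : upd c m ε u = act c (m + 1) (some j) ε u := by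
  unfold upd
  rw [h]
  rfl

theorem upd_none {m : ℕ} {ε : ZMod 3} {u : Conf J} (h : decode c m (u m) = none) :
    upd c m ε u = u := by
  unfold upd
  rw [h]

theorem upd_some_none {m : ℕ} {ε : ZMod 3} {u : Conf J} (h : decode c m (u m) = some none) :
    upd c m ε u = u := by
  unfold upd
  rw [h]

theorem act_some (k : ℕ) (j : J k) (ε : ZMod 3) (u : Conf J) :
    act c k (some j) ε u = update u k (u k + Pi.single j ε) := rfl

theorem upd_apply_le {m i : ℕ} (hi : i ≤ m) (ε : ZMod 3) (u : Conf J) : upd c m ε u i = u i := by
  rcases hd : decode c m (u m) with _ | _ | j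
  · rw [upd_none hd]
  · rw [upd_some_none hd]
  · rw [upd_some hd, act_some, update_of_ne (by omega)]

theorem act_of_decode_none {k : ℕ} {ε : ZMod 3} {u : Conf J} (h : decode c k (u k) = none) :
    act c k none ε u = u := by
  classical
  show bact c k ε u = u
  unfold bact
  have hex : ∃ m, k ≤ m ∧ decode c m (u m) ≠ some none := ⟨k, le_refl k, by rw [h]; simp⟩
  rw [dif_pos hex]
  have hfind : Nat.find hex = k := by
    apply le_antisymm
    · exact Nat.find_min' hex ⟨le_refl k, by rw [h]; simp⟩
    · exact (Nat.find_spec hex).1
  rw [hfind]
  exact upd_none h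

theorem act_of_decode_some {k : ℕ} {ε : ZMod 3} {u : Conf J} {γ : Option (J (k + 1))}
    (h : decode c k (u k) = some γ) : act c k none ε u = act c (k + 1) γ ε u := by
  classical
  rcases γ with _ | j
  · show bact c k ε u = bact c (k + 1) ε u
    unfold bact
    by_cases hex : ∃ m, k ≤ m ∧ decode c m (u m) ≠ some none
    · have hex' : ∃ m, k + 1 ≤ m ∧ decode c m (u m) ≠ some none := by
        obtain ⟨m, hm1, hm2⟩ := hex
        refine ⟨m, ?_, hm2⟩
        rcases Nat.lt_or_ge k m with h1 | h1
        · exact h1
        · exfalso
          have : m = k := le_antisymm h1 hm1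
          subst this
          exact hm2 h
      rw [dif_pos hex, dif_pos hex']
      have hfind : Nat.find hex = Nat.find hex' := by
        apply le_antisymm
        · apply Nat.find_min'
          exact ⟨by have := (Nat.find_spec hex').1; omega, (Nat.find_spec hex').2⟩
        · apply Nat.find_min'
          refine ⟨?_, (Nat.find_spec hex).2⟩
          have h1 := (Nat.find_spec hex).1
          rcases Nat.lt_or_ge k (Nat.find hex) with h2 | h2
          · exact h2
          · exfalso
            have h3 : Nat.find hex = k := le_antisymm h2 h1
            have h4 := (Nat.find_spec hex).2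
            rw [h3] at h4
            exact h4 h
      rw [hfind]
    · have hex' : ¬ ∃ m, k + 1 ≤ m ∧ decode c m (u m) ≠ some none := by
        rintro ⟨m, hm1, hm2⟩
        exact hex ⟨m, by omega, hm2⟩
      rw [dif_neg hex, dif_neg hex']
  · show bact c k ε u = act c (k + 1) (some j) ε u
    unfold bact
    have hex : ∃ m, k ≤ m ∧ decode c m (u m) ≠ some none := ⟨k, le_refl k, by rw [h]; simp⟩
    rw [dif_pos hex]
    have hfind : Nat.find hex = k := by
      apply le_antisymm
      · exact Nat.find_min' hex ⟨le_refl k, by rw [h]; simp⟩
      · exact (Nat.find_spec hex).1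
    rw [hfind]
    exact upd_some h

theorem act_apply_lt {k i : ℕ} (hi : i < k) (γ : Option (J k)) (ε : ZMod 3) (u : Conf J) :
    act c k γ ε u i = u i := by
  classical
  rcases γ with _ | j
  · show bact c k ε u i = u i
    unfold bact
    split_ifs with h
    · exact upd_apply_le (by have := (Nat.find_spec h).1; omega) ε u
    · rfl
  · show update u k _ i = u i
    rw [update_of_ne (by omega)]

theorem act_update_lt {k i : ℕ} (hi : i < k) (γ : Option (J k)) (ε : ZMod 3) (u : Conf J)
    (q : J i → ZMod 3) : act c k γ ε (update u i q) = update (act c k γ ε u) i q := by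
  classical
  rcases γ with _ | j
  · show bact c k ε (update u i q) = update (bact c k ε u) i q
    unfold bact
    have hiff : ∀ m, (k ≤ m ∧ decode c m (update u i q m) ≠ some none) ↔
        (k ≤ m ∧ decode c m (u m) ≠ some none) := by
      intro m
      constructor
      · rintro ⟨h1, h2⟩
        rw [update_of_ne (by omega)] at h2
        exact ⟨h1, h2⟩
      · rintro ⟨h1, h2⟩
        refine ⟨h1, ?_⟩
        rw [update_of_ne (by omega)]
        exact h2
    by_cases hex : ∃ m, k ≤ m ∧ decode c m (u m) ≠ some none
    · have hex' : ∃ m, k ≤ m ∧ decode c m (update u i q m) ≠ some none := by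
        obtain ⟨m, hm⟩ := hex
        exact ⟨m, (hiff m).mpr hm⟩
      rw [dif_pos hex, dif_pos hex']
      have hfind : Nat.find hex' = Nat.find hex := by
        apply le_antisymm
        · exact Nat.find_min' hex' ((hiff _).mpr (Nat.find_spec hex))
        · exact Nat.find_min' hex ((hiff _).mp (Nat.find_spec hex'))
      rw [hfind]
      have hm := (Nat.find_spec hex).1
      generalize Nat.find hex = m at hm
      unfold upd
      have e : update u i q m = u m := update_of_ne (by omega) _ _
      rw [e]
      split
      · rw [update_of_ne (by omega : m + 1 ≠ i), update_comm (by omega : i ≠ m + 1)]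
      · rfl
      · rfl
    · have hex' : ¬ ∃ m, k ≤ m ∧ decode c m (update u i q m) ≠ some none := by
        rintro ⟨m, hm⟩
        exact hex ⟨m, (hiff m).mp hm⟩
      rw [dif_neg hex, dif_neg hex']
  · show update (update u i q) k _ = update (update u k _) i q
    rw [update_of_ne (by omega : k ≠ i), update_comm (by omega : i ≠ k)]

theorem upd_zero (m : ℕ) (u : Conf J) : upd c m 0 u = u := by
  unfold upd
  split
  · rw [Pi.single_zero, add_zero, update_eq_self]
  · rfl
  · rfl

theorem act_zero (k : ℕ) (γ : Option (J k)) (u : Conf J) : act c k γ 0 u = u := by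
  classical
  rcases γ with _ | j
  · show bact c k 0 u = u
    unfold bact
    split_ifs with h
    · exact upd_zero _ u
    · rfl
  · show update u k _ = u
    rw [Pi.single_zero, add_zero, update_eq_self]

theorem upd_add (m : ℕ) (ε ε' : ZMod 3) (u : Conf J) :
    upd c m ε (upd c m ε' u) = upd c m (ε + ε') u := by
  have h1 : (upd c m ε' u) m = u m := upd_apply_le (le_refl m) ε' u
  rcases hd : decode c m (u m) with _ | _ | j
  · rw [upd_none (u := u) hd, upd_none (u := u) hd, upd_none (u := u) hd]
  · have e : ∀ (ε : ZMod 3) (v : Conf J), decode c m (v m) = some none → upd c m ε v = v := by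
      intro ε v hv
      unfold upd
      rw [hv]
    rw [e ε' u hd, e _ u hd, e _ u hd]
  · rw [upd_some (u := u) (ε := ε') hd, upd_some (u := u) (ε := ε + ε') hd]
    have hd' : decode c m ((act c (m + 1) (some j) ε' u) m) = some (some j) := by
      rw [act_apply_lt (by omega)]; exact hd
    rw [upd_some hd', act_some, act_some, act_some, update_self, update_idem, add_assoc,
      ← Pi.single_add, add_comm ε' ε]

theorem act_add (k : ℕ) (γ : Option (J k)) (ε ε' : ZMod 3) (u : Conf J) :
    act c k γ ε (act c k γ ε' u) = act c k γ (ε + ε') u := by
  classical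
  rcases γ with _ | j
  · show bact c k ε (bact c k ε' u) = bact c k (ε + ε') u
    by_cases hex : ∃ m, k ≤ m ∧ decode c m (u m) ≠ some none
    · have e1 : ∀ δ, bact c k δ u = upd c (Nat.find hex) δ u := by
        intro δ
        unfold bact
        rw [dif_pos hex]
      rw [e1, e1]
      have hspec := Nat.find_spec hex
      have hmin : ∀ i, i < Nat.find hex → ¬ (k ≤ i ∧ decode c i (u i) ≠ some none) :=
        fun i hi => Nat.find_min hex hi
      generalize Nat.find hex = m at hspec hmin
      have hex' : ∃ i, k ≤ i ∧ decode c i ((upd c m ε' u) i) ≠ some none := by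
        refine ⟨m, hspec.1, ?_⟩
        rw [upd_apply_le (le_refl m)]
        exact hspec.2
      have hfind : Nat.find hex' = m := by
        apply le_antisymm
        · apply Nat.find_min'
          refine ⟨hspec.1, ?_⟩
          rw [upd_apply_le (le_refl m)]
          exact hspec.2
        · by_contra hlt
          push Not at hlt
          have hs := Nat.find_spec hex'
          rw [upd_apply_le (by omega)] at hs
          exact hmin _ hlt hs
      unfold bact
      rw [dif_pos hex', hfind]
      exact upd_add m ε ε' u
    · have e1 : ∀ δ, bact c k δ u = u := by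
        intro δ
        unfold bact
        rw [dif_neg hex]
      rw [e1, e1, e1]
  · rw [act_some, act_some, act_some, update_self, update_idem, add_assoc, ← Pi.single_add,
      add_comm ε' ε]

variable (c)

/-- the letters as permutations -/
noncomputable def letter (k : ℕ) (γ : Option (J k)) (ε : ZMod 3) : Equiv.Perm (Conf J) where
  toFun := act c k γ ε
  invFun := act c k γ (-ε)
  left_inv u := by
    show act c k γ (-ε) (act c k γ ε u) = u
    rw [act_add, neg_add_cancel, act_zero]
  right_inv u := by
    show act c k γ ε (act c k γ (-ε) u) = u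
    rw [act_add, add_neg_cancel, act_zero]

variable {c}

theorem letter_apply (k : ℕ) (γ : Option (J k)) (ε : ZMod 3) (u : Conf J) :
    letter c k γ ε u = act c k γ ε u := rfl

theorem letter_mul (k : ℕ) (γ : Option (J k)) (ε ε' : ZMod 3) :
    letter c k γ ε * letter c k γ ε' = letter c k γ (ε + ε') := by
  ext1 u
  exact act_add k γ ε ε' u

theorem letter_zero (k : ℕ) (γ : Option (J k)) : letter c k γ 0 = 1 := by
  ext1 u
  exact act_zero k γ u

theorem letter_inv (k : ℕ) (γ : Option (J k)) (ε : ZMod 3) :
    (letter c k γ ε)⁻¹ = letter c k γ (-ε) := by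
  rw [inv_eq_iff_mul_eq_one, letter_mul, add_neg_cancel, letter_zero]

/-! ### words -/

/-- run a word, first letter first -/
noncomputable def run (c : ∀ k, Option (J (k + 1)) → J k → ZMod 3) (k : ℕ) :
    List (Option (J k) × ZMod 3) → Conf J → Conf J
  | [], u => u
  | a :: w, u => run c k w (act c k a.1 a.2 u)

theorem run_nil (k : ℕ) (u : Conf J) : run c k [] u = u := rfl

theorem run_cons (k : ℕ) (a : Option (J k) × ZMod 3) (w : List (Option (J k) × ZMod 3))
    (u : Conf J) : run c k (a :: w) u = run c k w (act c k a.1 a.2 u) := rfl

theorem run_append (k : ℕ) (w w' : List (Option (J k) × ZMod 3)) (u : Conf J) :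
    run c k (w ++ w') u = run c k w' (run c k w u) := by
  induction w generalizing u with
  | nil => rfl
  | cons a w ih => rw [List.cons_append, run_cons, run_cons, ih]

/-- total displacement in the coordinate `k` -/
def disp {k : ℕ} : List (Option (J k) × ZMod 3) → (J k → ZMod 3)
  | [] => 0
  | (some j, ε) :: w => Pi.single j ε + disp w
  | (none, _) :: w => disp w

/-- the word of level `k+1` seen at the value `q` of the coordinate `k` -/
noncomputable def tail (c : ∀ k, Option (J (k + 1)) → J k → ZMod 3) (k : ℕ) :
    (J k → ZMod 3) → List (Option (J k) × ZMod 3) → List (Option (J (k + 1)) × ZMod 3)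
  | _, [] => []
  | q, (some j, ε) :: w => tail c k (q + Pi.single j ε) w
  | q, (none, ε) :: w =>
    match decode c k q with
    | some γ => (γ, ε) :: tail c k q w
    | none => tail c k q w

theorem tail_some (k : ℕ) (q : J k → ZMod 3) (j : J k) (ε : ZMod 3)
    (w : List (Option (J k) × ZMod 3)) :
    tail c k q ((some j, ε) :: w) = tail c k (q + Pi.single j ε) w := rfl

theorem tail_none_none {k : ℕ} {q : J k → ZMod 3} (ε : ZMod 3)
    (w : List (Option (J k) × ZMod 3)) (h : decode c k q = none) :
    tail c k q ((none, ε) :: w) = tail c k q w := by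
  show (match decode c k q with
    | some γ => (γ, ε) :: tail c k q w
    | none => tail c k q w) = _
  rw [h]

theorem tail_none_some {k : ℕ} {q : J k → ZMod 3} (ε : ZMod 3)
    (w : List (Option (J k) × ZMod 3)) {γ : Option (J (k + 1))} (h : decode c k q = some γ) :
    tail c k q ((none, ε) :: w) = (γ, ε) :: tail c k q w := by
  show (match decode c k q with
    | some γ => (γ, ε) :: tail c k q w
    | none => tail c k q w) = _
  rw [h]

theorem run_apply_lt {k i : ℕ} (hi : i < k) (w : List (Option (J k) × ZMod 3)) (u : Conf J) :
    run c k w u i = u i := by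
  induction w generalizing u with
  | nil => rfl
  | cons a w ih => rw [run_cons, ih, act_apply_lt hi]

theorem run_update_lt {k i : ℕ} (hi : i < k) (w : List (Option (J k) × ZMod 3)) (u : Conf J)
    (q : J i → ZMod 3) : run c k w (update u i q) = update (run c k w u) i q := by
  induction w generalizing u with
  | nil => rfl
  | cons a w ih => rw [run_cons, run_cons, act_update_lt hi, ih]

theorem run_eq (k : ℕ) (w : List (Option (J k) × ZMod 3)) (u : Conf J) :
    run c k w u = update (run c (k + 1) (tail c k (u k) w) u) k (u k + disp w) := by
  induction w generalizing u with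
  | nil => 
    show u = update u k (u k + 0)
    rw [add_zero, update_eq_self]
  | cons a w ih =>
    obtain ⟨γ, ε⟩ := a
    rcases γ with _ | j
    · rw [run_cons]
      show run c k w (act c k none ε u) = _
      rcases hd : decode c k (u k) with _ | γ
      · rw [act_of_decode_none hd, ih, tail_none_none ε w hd]
        rfl
      · rw [act_of_decode_some hd, ih, act_apply_lt (by omega), tail_none_some ε w hd]
        rfl
    · rw [run_cons]
      show run c k w (update u k (u k + Pi.single j ε)) = _
      rw [ih, update_self, run_update_lt (by omega), update_idem, add_assoc]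
      rfl

/-- the word acts trivially -/
def Triv (c : ∀ k, Option (J (k + 1)) → J k → ZMod 3) (k : ℕ)
    (w : List (Option (J k) × ZMod 3)) : Prop := ∀ u, run c k w u = u

theorem triv_iff (k : ℕ) (w : List (Option (J k) × ZMod 3)) :
    Triv c k w ↔ disp w = 0 ∧ ∀ q, Triv c (k + 1) (tail c k q w) := by
  constructor
  · intro h
    have key : ∀ (q : J k → ZMod 3) (u : Conf J),
        update (run c (k + 1) (tail c k q w) u) k (q + disp w) = update u k q := by
      intro q u
      have h1 := h (update u k q)
      rw [run_eq, update_self, run_update_lt (by omega), update_idem] at h1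
      exact h1
    constructor
    · have h1 := congrFun (key 0 0) k
      rw [update_self, update_self, zero_add] at h1
      exact h1
    · intro q u
      funext i
      by_cases hi : i = k
      · subst hi
        exact run_apply_lt (by omega) _ _
      · have h1 := congrFun (key q u) i
        rw [update_of_ne hi, update_of_ne hi] at h1
        exact h1
  · rintro ⟨h1, h2⟩ u
    rw [run_eq, h1, add_zero, h2 (u k) u, update_eq_self]

end Pool.Agent.W_MP_458e77_lc
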