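import Mathlib

/-!
Alternating Turing machines with random access to the input, and the class ALOGTIME.
-/

namespace Pool.Agent.W_MP_458e77_lc

/-- An alternating Turing machine with random access to its input.  It has the tapes
`0, …, tapes`; tape `0` is the index tape.  In one step the machine reads the symbols under its
heads and the input symbol whose position is written on the index tape (`none` if there is no such
input symbol), and then changes state, writes one symbol under each head and moves each head by at
most one cell; `next` is the transition relation. -/
structure ATM where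
  Q : Type
  Γ : Type
  finQ : Finite Q
  finΓ : Finite Γ
  tapes : ℕ
  blank : Γ
  one : Γ
  blank_ne_one : blank ≠ one
  start : Q
  universal : Q → Prop
  next : Q → (Fin (tapes + 1) → Γ) → Option Bool →
    Q → (Fin (tapes + 1) → Γ) → (Fin (tapes + 1) → SignType) → Prop

/-- configurations: state, head positions, tape contents -/
@[ext] structure Cfg (M : ATM) where
  q : M.Q
  head : Fin (M.tapes + 1) → ℤ
  tape : Fin (M.tapes + 1) → ℤ → M.Γ

variable {M : ATM}

open Classical in
/-- the number written in binary on the index tape: the cell `i ≥ 0` is the digit of `2 ^ i` -/
noncomputable def Cfg.addr (c : Cfg M) : ℕ :=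
  ∑ᶠ i : ℕ, if c.tape 0 i = M.one then 2 ^ i else 0

/-- one step on the input `x` -/
def Step (x : List Bool) (c c' : Cfg M) : Prop :=
  ∃ (w : Fin (M.tapes + 1) → M.Γ) (mv : Fin (M.tapes + 1) → SignType),
    M.next c.q (fun i => c.tape i (c.head i)) x[c.addr]? c'.q w mv ∧
    c'.head = (fun i => c.head i + (mv i : ℤ)) ∧
    c'.tape = fun i => Function.update (c.tape i) (c.head i) (w i)

/-- acceptance by a computation tree of height less than `t`: a universal configuration accepts if
all its successors do, any other (existential) configuration accepts if some successor does -/
def Accepts (x : List Bool) : ℕ → Cfg M → Prop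
  | 0, _ => False
  | t + 1, c => (M.universal c.q ∧ ∀ c', Step x c c' → Accepts x t c') ∨
      (¬ M.universal c.q ∧ ∃ c', Step x c c' ∧ Accepts x t c')

/-- every computation from `c` on the input `x` stops after at most `t` steps -/
def Halts (x : List Bool) : ℕ → Cfg M → Prop
  | 0, c => ∀ c', ¬ Step x c c'
  | t + 1, c => ∀ c', Step x c c' → Halts x t c'

/-- the initial configuration -/
def initial (M : ATM) : Cfg M := ⟨M.start, fun _ => 0, fun _ _ => M.blank⟩

/-- ALOGTIME: the languages decided by an alternating Turing machine with random access to its
input in time `O(log n)`. -/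
def Alogtime (L : Set (List Bool)) : Prop :=
  ∃ (M : ATM) (C : ℕ), ∀ x : List Bool,
    Halts x (C * Nat.log 2 x.length + C) (initial M) ∧
    (x ∈ L ↔ ∃ t, Accepts x t (initial M))

/-- the language PARITY -/
def Parity : Set (List Bool) := {x | Odd (x.count true)}

end Pool.Agent.W_MP_458e77_lc
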