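import Pool.Agent.W_MP_458e77_lc.Blow

/-!
The base case: a level at which the code has large distance.
-/

namespace Pool.Agent.W_MP_458e77_lc

open Function

variable {J : ℕ → Type} [∀ k, DecidableEq (J k)] [∀ k, Fintype (J k)] {n Z : ℕ}
variable {c : ∀ k, Option (J (k + 1)) → J k → ZMod 3}

set_option linter.unusedSectionVars false

/-- the coordinates occurring in a word -/
def occ {X : Type} (L : List (Slot n X)) : List X := L.filterMap fun s => s.1

theorem occ_length {X : Type} (L : List (Slot n X)) : (occ L).length ≤ L.length :=
  List.length_filterMap_le _ _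

theorem disp_of_not_occ {k : ℕ} (x : Fin n → Bool) (L : List (Slot n (J k))) (j : J k)
    (h : j ∉ occ L) : disp (ev x L) j = 0 := by
  rw [disp_apply]
  apply List.sum_eq_zero
  intro y hy
  rw [List.mem_map] at hy
  obtain ⟨s, hs, rfl⟩ := hy
  have h1 : s.1 ≠ some j := by
    intro h2
    exact h (List.mem_filterMap.2 ⟨s, hs, h2⟩)
  unfold coef
  rw [if_neg h1, ite_self]

theorem dgate_occ {k : ℕ} (P S : List (Slot n (J k))) (x : Fin n → Bool) :
    dgate (occ (P ++ S)) P S 0 x = true ↔ disp (ev x P) = disp (ev x S) := by
  rw [dgate_iff]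
  constructor
  · intro h
    funext j
    by_cases hj : j ∈ occ (P ++ S)
    · exact sub_eq_zero.1 (h j hj)
    · have h1 : j ∉ occ P := fun h => hj (by
        unfold occ; rw [List.filterMap_append]; exact List.mem_append_left _ h)
      have h2 : j ∉ occ S := fun h => hj (by
        unfold occ; rw [List.filterMap_append]; exact List.mem_append_right _ h)
      rw [disp_of_not_occ x P j h1, disp_of_not_occ x S j h2]
  · intro h j _
    rw [h, sub_self]
    rfl

/-- the exponents of the letters read at the value `disp S` -/
def slist {k : ℕ} (S : List (Slot n (J k))) :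
    List (Slot n (J k)) → List (Slot n (J k)) → List (ZMod 3 × ((Fin n → Bool) → Bool))
  | _, [] => []
  | P, (some j, ε, f) :: rest => slist S (P ++ [(some j, ε, f)]) rest
  | P, (none, ε, f) :: rest => (ε, fun x => f x && dgate (occ (P ++ S)) P S 0 x) ::
      slist S (P ++ [(none, ε, f)]) rest

/-- value of the sum -/
def sval {n : ℕ} (x : Fin n → Bool) (l : List (ZMod 3 × ((Fin n → Bool) → Bool))) : ZMod 3 :=
  (l.map (fun p => if p.2 x = true then p.1 else 0)).sum

theorem slist_length {k : ℕ} (S : List (Slot n (J k))) (rest : List (Slot n (J k))) :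
    ∀ P, (slist S P rest).length ≤ rest.length := by
  induction rest with
  | nil => intro P; exact le_refl _
  | cons a rest ih =>
    intro P
    obtain ⟨γ, ε, f⟩ := a
    rw [List.length_cons]
    have h1 := ih (P ++ [(γ, ε, f)])
    rcases γ with _ | j
    · show (slist S (P ++ [(none, ε, f)]) rest).length + 1 ≤ _
      omega
    · show (slist S (P ++ [(some j, ε, f)]) rest).length ≤ _
      omega

theorem slist_AC03 {k δ : ℕ} (hZ : 2 ≤ Z) (S : List (Slot n (J k))) (rest : List (Slot n (J k)))
    (hS : ∀ s ∈ S, AC03 n Z δ s.2.2) (hrest : ∀ s ∈ rest, AC03 n Z δ s.2.2) :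
    ∀ (P : List (Slot n (J k))), (∀ s ∈ P, AC03 n Z δ s.2.2) →
      P.length + rest.length + S.length ≤ Z →
      ∀ s ∈ slist S P rest, AC03 n Z (δ + 3) s.2 := by
  induction rest with
  | nil => intro P _ _ s hs; exact absurd hs (List.not_mem_nil)
  | cons a rest ih =>
    intro P hP hlen s hs
    obtain ⟨γ, ε, f⟩ := a
    have hf : AC03 n Z δ f := hrest _ List.mem_cons_self
    have ih' := ih (fun s hs => hrest s (List.mem_cons_of_mem _ hs)) (P ++ [(γ, ε, f)]) (by
        intro s hs
        rw [List.mem_append] at hs
        rcases hs with hs | hs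
        · exact hP s hs
        · rw [List.mem_singleton] at hs
          rw [hs]
          exact hf) (by
        rw [List.length_append, List.length_singleton]
        rw [List.length_cons] at hlen
        omega)
    rcases γ with _ | j
    · rcases List.mem_cons.1 hs with rfl | hs
      · refine AC03.and2 hZ (AC03.mono (by omega) hf) ?_
        apply dgate_AC03 _ _ _ _ _ _ hP hS
        · have := occ_length (P ++ S)
          rw [List.length_append] at this
          rw [List.length_cons] at hlen
          omega
        · rw [List.length_cons] at hlen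
          omega
      · exact ih' s hs
    · exact ih' s hs

/-- the difference of the displacements of two prefixes is small -/
theorem norm_diff_le {k : ℕ} (x : Fin n → Bool) {L P S : List (Slot n (J k))} (hP : P <+: L)
    (hS : S <+: L) : hammingNorm (disp (ev x P) - disp (ev x S)) ≤ cnt x L := by
  have key : ∀ {P S : List (Slot n (J k))}, P <+: S → S <+: L →
      hammingNorm (disp (ev x S) - disp (ev x P)) ≤ cnt x L := by
    intro P S h1 h2
    obtain ⟨Q, rfl⟩ := h1
    obtain ⟨R, rfl⟩ := h2
    rw [ev_append, disp_append, add_sub_cancel_left, cnt_append, cnt_append]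
    have := norm_disp_le x Q
    omega
  rcases List.prefix_or_prefix_of_prefix hP hS with h | h
  · have h1 := key h hS
    rw [← neg_sub]
    have : hammingNorm (-(disp (ev x S) - disp (ev x P))) =
        hammingNorm (disp (ev x S) - disp (ev x P)) := by
      unfold hammingNorm
      congr 1
      ext i
      rw [Finset.mem_filter, Finset.mem_filter, Pi.neg_apply, neg_ne_zero]
    rw [this]
    exact h1
  · exact key h hP

theorem run_tail_base {k M : ℕ} (hc : ∀ k, Injective (c k))
    (hd : ∀ γ γ', γ ≠ γ' → M < hammingDist (c k γ) (c k γ')) (x : Fin n → Bool)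
    {L S : List (Slot n (J k))} (hL : cnt x L ≤ M) (hS : S <+: L) (γ₀ : Option (J (k + 1)))
    (rest : List (Slot n (J k))) :
    ∀ (P : List (Slot n (J k))), P ++ rest = L → ∀ u,
    run c (k + 1) (tail c k (c k γ₀ - disp (ev x S) + disp (ev x P)) (ev x rest)) u =
      act c (k + 1) γ₀ (sval x (slist S P rest)) u := by
  induction rest with
  | nil => 
    intro P _ u
    show u = act c (k + 1) γ₀ 0 u
    rw [act_zero]
  | cons a rest ih =>
    intro P hPL u
    obtain ⟨γ, ε, f⟩ := a
    have ih' := ih (P ++ [(γ, ε, f)]) (by rw [List.append_assoc]; exact hPL)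
    rcases γ with _ | j
    · rw [disp_snoc_none] at ih'
      rw [ev_cons]
      have hsv : sval x (slist S P ((none, ε, f) :: rest)) =
          (if (f x && dgate (occ (P ++ S)) P S 0 x) = true then ε else 0) +
          sval x (slist S (P ++ [(none, ε, f)]) rest) := rfl
      rw [hsv]
      have hPp : P <+: L := ⟨_, hPL⟩
      by_cases heq : disp (ev x P) = disp (ev x S)
      · have hdec : decode c k (c k γ₀ - disp (ev x S) + disp (ev x P)) = some γ₀ := by
          rw [decode_eq_some hc, heq]
          abel
        rw [tail_none_some _ _ hdec, run_cons, ih']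
        show act c (k + 1) γ₀ _ (act c (k + 1) γ₀ _ u) = _
        rw [act_add]
        have hg : dgate (occ (P ++ S)) P S 0 x = true := (dgate_occ P S x).2 heq
        rw [hg, Bool.and_true]
        exact congrArg (fun e => act c (k + 1) γ₀ e u) (add_comm _ _)
      · have hdec : decode c k (c k γ₀ - disp (ev x S) + disp (ev x P)) = none := by
          rcases hdc : decode c k (c k γ₀ - disp (ev x S) + disp (ev x P)) with _ | γ
          · rfl
          · exfalso
            rw [decode_eq_some hc] at hdc
            have hne : γ ≠ γ₀ := by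
              rintro rfl
              apply heq
              have : disp (ev x P) - disp (ev x S) = 0 := by
                have h2 : c k γ + 0 = c k γ + (disp (ev x P) - disp (ev x S)) := by
                  rw [add_zero]
                  nth_rewrite 1 [hdc]
                  abel
                exact (add_left_cancel h2).symm
              exact sub_eq_zero.1 this
            have h1 := hd γ γ₀ hne
            rw [hammingDist_eq_hammingNorm, hdc] at h1
            have h2 : -(c k γ₀ - disp (ev x S) + disp (ev x P)) + c k γ₀ =
                disp (ev x S) - disp (ev x P) := by abel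
            rw [h2] at h1
            have h3 := norm_diff_le x hS hPp
            omega
        rw [tail_none_none _ _ hdec, ih']
        have hg : dgate (occ (P ++ S)) P S 0 x = false := by
          rw [← Bool.not_eq_true, dgate_occ P S x]
          exact heq
        rw [hg, Bool.and_false]
        simp
    · rw [disp_snoc_some] at ih'
      rw [ev_cons]
      show run c (k + 1) (tail c k _ ((some j, (if f x = true then ε else 0)) :: _)) u = 
        act c (k + 1) γ₀ (sval x (slist S (P ++ [(some j, ε, f)]) rest)) u
      rw [tail_some, add_assoc, ih']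

/-- if no letter is read, the tail is empty -/
theorem tail_eq_nil {k : ℕ} (x : Fin n → Bool) (q : J k → ZMod 3) (rest : List (Slot n (J k))) :
    ∀ (P : List (Slot n (J k))),
    (∀ Q, Q <+: P ++ rest → decode c k (q + disp (ev x Q)) = none) →
    tail c k (q + disp (ev x P)) (ev x rest) = [] := by
  induction rest with
  | nil => intro P _; rfl
  | cons a rest ih =>
    intro P h
    obtain ⟨γ, ε, f⟩ := a
    have ih' := ih (P ++ [(γ, ε, f)]) (by
      intro Q hQ
      apply h
      rw [List.append_assoc] at hQ
      exact hQ)
    rw [ev_cons]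
    rcases γ with _ | j
    · rw [disp_snoc_none] at ih'
      have hdec := h P (List.prefix_append _ _)
      rw [tail_none_none _ _ hdec]
      exact ih'
    · rw [disp_snoc_some] at ih'
      show tail c k _ ((some j, (if f x = true then ε else 0)) :: _) = _
      rw [tail_some, add_assoc]
      exact ih'

/-- triviality, level by level, in terms of prefixes -/
theorem triv_iff_prefix {k : ℕ} (hc : ∀ k, Injective (c k)) (x : Fin n → Bool)
    (L : List (Slot n (J k))) :
    Triv c k (ev x L) ↔ disp (ev x L) = 0 ∧ ∀ S ∈ L.inits, ∀ γ₀ : Option (J (k + 1)),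
      Triv c (k + 1) (tail c k (c k γ₀ - disp (ev x S)) (ev x L)) := by
  rw [triv_iff]
  constructor
  · rintro ⟨h1, h2⟩
    exact ⟨h1, fun S _ γ₀ => h2 _⟩
  · rintro ⟨h1, h2⟩
    refine ⟨h1, ?_⟩
    intro q
    by_cases h : ∀ Q, Q <+: L → decode c k (q + disp (ev x Q)) = none
    · have h3 := tail_eq_nil (c := c) x q L [] (by rw [List.nil_append]; exact h)
      have h4 : q + disp (ev x ([] : List (Slot n (J k)))) = q := by
        show q + 0 = q
        rw [add_zero]
      rw [h4] at h3
      rw [h3]
      intro u
      rfl
    · push Not at h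
      obtain ⟨Q, hQ, h3⟩ := h
      obtain ⟨γ, hγ⟩ := Option.ne_none_iff_exists'.1 h3
      rw [decode_eq_some hc] at hγ
      have h4 := h2 Q (by rw [List.mem_inits]; exact hQ) γ
      have h5 : c k γ - disp (ev x Q) = q := by rw [hγ]; abel
      rw [h5] at h4
      exact h4

theorem triv_base {k M : ℕ} (hc : ∀ k, Injective (c k)) [Nonempty (J (k + 1))]
    (hd : ∀ γ γ', γ ≠ γ' → M < hammingDist (c k γ) (c k γ')) (x : Fin n → Bool)
    (L : List (Slot n (J k))) (hL : cnt x L ≤ M) :
    Triv c k (ev x L) ↔ disp (ev x L) = 0 ∧ ∀ S ∈ L.inits, sval x (slist S [] L) = 0 := by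
  rw [triv_iff_prefix hc]
  have key : ∀ S ∈ L.inits, ∀ (γ₀ : Option (J (k + 1))) (u : Conf J),
      run c (k + 1) (tail c k (c k γ₀ - disp (ev x S)) (ev x L)) u =
      act c (k + 1) γ₀ (sval x (slist S [] L)) u := by
    intro S hS γ₀ u
    have h1 := run_tail_base hc hd x hL ((List.mem_inits _ _).1 hS) γ₀ L [] rfl u
    have h4 : c k γ₀ - disp (ev x S) + disp (ev x ([] : List (Slot n (J k)))) =
        c k γ₀ - disp (ev x S) := by
      show c k γ₀ - disp (ev x S) + 0 = _
      rw [add_zero]
    rw [h4] at h1
    exact h1
  constructor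
  · rintro ⟨h1, h2⟩
    refine ⟨h1, ?_⟩
    intro S hS
    obtain ⟨j⟩ := ‹Nonempty (J (k + 1))›
    have h3 := h2 S hS (some j) 0
    rw [key S hS, act_some] at h3
    have h4 := congrFun (congrFun h3 (k + 1)) j
    rw [update_self] at h4
    have h5 : ((0 : Conf J) (k + 1) + Pi.single j (sval x (slist S [] L)) : J (k + 1) → ZMod 3) j
        = sval x (slist S [] L) := by
      rw [Pi.add_apply, Pi.single_eq_same]
      exact zero_add _
    rw [h5] at h4
    exact h4
  · rintro ⟨h1, h2⟩
    refine ⟨h1, ?_⟩
    intro S hS γ₀ u
    rw [key S hS, h2 S hS, act_zero]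

end Pool.Agent.W_MP_458e77_lc
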