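import Pool.Agent.W_MP_458e77_lc.Slots

/-!
Passing from level `k` to level `k + 1` by circuits.
-/

namespace Pool.Agent.W_MP_458e77_lc

open Function

variable {J : ℕ → Type} [∀ k, DecidableEq (J k)] [∀ k, Fintype (J k)] {n Z : ℕ}
variable {c : ∀ k, Option (J (k + 1)) → J k → ZMod 3}

set_option linter.unusedSectionVars false

/-- all coordinates, as a list -/
noncomputable def allL (X : Type) [Fintype X] : List X := (Finset.univ : Finset X).toList

theorem mem_allL {X : Type} [Fintype X] (a : X) : a ∈ allL X := by
  unfold allL
  rw [Finset.mem_toList]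
  exact Finset.mem_univ a

theorem nodup_allL (X : Type) [Fintype X] : (allL X).Nodup := Finset.nodup_toList _

theorem length_allL (X : Type) [Fintype X] : (allL X).length = Fintype.card X := by
  unfold allL
  rw [Finset.length_toList]
  rfl

/-- the block of letters of level `k+1` replacing a switched letter `none` of level `k`, seen from
the value `q₀ = c γ₀ - disp S` of coordinate `k` -/
noncomputable def block (c : ∀ k, Option (J (k + 1)) → J k → ZMod 3) {k : ℕ}
    (S : List (Slot n (J k))) (γ₀ : Option (J (k + 1))) (P : List (Slot n (J k))) (ε : ZMod 3)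
    (f : (Fin n → Bool) → Bool) : List (Slot n (J (k + 1))) :=
  (allL (Option (J (k + 1)))).map fun γ =>
    (γ, ε, fun x => f x && dgate (allL (J k)) P S (c k γ - c k γ₀) x)

/-- the word of level `k+1` -/
noncomputable def blow (c : ∀ k, Option (J (k + 1)) → J k → ZMod 3) {k : ℕ}
    (S : List (Slot n (J k))) (γ₀ : Option (J (k + 1))) :
    List (Slot n (J k)) → List (Slot n (J k)) → List (Slot n (J (k + 1)))
  | _, [] => []
  | P, (some j, ε, f) :: rest => blow c S γ₀ (P ++ [(some j, ε, f)]) rest
  | P, (none, ε, f) :: rest =>
      block c S γ₀ P ε f ++ blow c S γ₀ (P ++ [(none, ε, f)]) rest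

theorem blow_nil {k : ℕ} (S : List (Slot n (J k))) (γ₀ : Option (J (k + 1)))
    (P : List (Slot n (J k))) : blow c S γ₀ P [] = [] := rfl

theorem blow_some {k : ℕ} (S : List (Slot n (J k))) (γ₀ : Option (J (k + 1)))
    (P : List (Slot n (J k))) (j : J k) (ε : ZMod 3) (f : (Fin n → Bool) → Bool)
    (rest : List (Slot n (J k))) : blow c S γ₀ P ((some j, ε, f) :: rest) =
      blow c S γ₀ (P ++ [(some j, ε, f)]) rest := rfl

theorem blow_none {k : ℕ} (S : List (Slot n (J k))) (γ₀ : Option (J (k + 1)))
    (P : List (Slot n (J k))) (ε : ZMod 3) (f : (Fin n → Bool) → Bool)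
    (rest : List (Slot n (J k))) : blow c S γ₀ P ((none, ε, f) :: rest) =
      block c S γ₀ P ε f ++ blow c S γ₀ (P ++ [(none, ε, f)]) rest := rfl

theorem dgate_allL {k : ℕ} (P S : List (Slot n (J k))) (v : J k → ZMod 3) (x : Fin n → Bool) :
    dgate (allL (J k)) P S v x = true ↔ disp (ev x P) - disp (ev x S) = v := by
  rw [dgate_iff]
  constructor
  · intro h
    funext j
    exact h j (mem_allL j)
  · intro h j _
    rw [← h]
    rfl

theorem run_zero_list {k : ℕ} (l : List (Option (J k) × ZMod 3)) (h : ∀ a ∈ l, a.2 = 0)
    (u : Conf J) : run c k l u = u := by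
  induction l generalizing u with
  | nil => rfl
  | cons a l ih =>
    rw [run_cons, h a (List.mem_cons_self), act_zero]
    exact ih (fun b hb => h b (List.mem_cons_of_mem _ hb)) u

theorem run_block {k : ℕ} (hc : ∀ k, Injective (c k)) (S : List (Slot n (J k)))
    (γ₀ : Option (J (k + 1))) (P : List (Slot n (J k))) (ε : ZMod 3)
    (f : (Fin n → Bool) → Bool) (x : Fin n → Bool) (u : Conf J) :
    run c (k + 1) (ev x (block c S γ₀ P ε f)) u =
      match decode c k (c k γ₀ - disp (ev x S) + disp (ev x P)) with
      | some γ => act c (k + 1) γ (if f x = true then ε else 0) u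
      | none => u := by
  have key : ∀ γ, dgate (allL (J k)) P S (c k γ - c k γ₀) x = true ↔
      decode c k (c k γ₀ - disp (ev x S) + disp (ev x P)) = some γ := by
    intro γ
    rw [dgate_allL, decode_eq_some hc]
    constructor
    · intro h
      have : c k γ = (disp (ev x P) - disp (ev x S)) + c k γ₀ := by rw [h]; abel
      rw [this]; abel
    · intro h
      rw [h]; abel
  unfold block
  rcases hd : decode c k (c k γ₀ - disp (ev x S) + disp (ev x P)) with _ | γ
  · apply run_zero_list
    intro a ha
    unfold ev at ha
    rw [List.map_map, List.mem_map] at ha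
    obtain ⟨γ, _, rfl⟩ := ha
    have h1 : dgate (allL (J k)) P S (c k γ - c k γ₀) x = false := by
      rw [← Bool.not_eq_true, key γ, hd]
      simp
    simp [h1]
  · -- split the list at γ
    obtain ⟨l1, l2, hl⟩ := List.append_of_mem (mem_allL γ)
    have hnd := nodup_allL (Option (J (k + 1)))
    rw [hl] at hnd ⊢
    rw [List.map_append, List.map_cons, ev_append, ev_cons, run_append, run_cons]
    have hz : ∀ l : List (Option (J (k + 1))), γ ∉ l → ∀ u,
        run c (k + 1) (ev x (l.map fun γ => ((γ, ε, fun x =>
          f x && dgate (allL (J k)) P S (c k γ - c k γ₀) x) : Slot n (J (k + 1))))) u = u := by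
      intro l hl u
      apply run_zero_list
      intro a ha
      unfold ev at ha
      rw [List.map_map, List.mem_map] at ha
      obtain ⟨γ', hγ', rfl⟩ := ha
      have h1 : dgate (allL (J k)) P S (c k γ' - c k γ₀) x = false := by
        rw [← Bool.not_eq_true, key γ', hd]
        intro h
        rw [Option.some.inj h] at hl
        exact hl hγ'
      simp [h1]
    have h1 : γ ∉ l1 := by
      intro h
      exact (List.nodup_append.1 hnd).2.2 γ h γ (List.mem_cons_self) rfl
    have h2 : γ ∉ l2 := by
      have := (List.nodup_append.1 hnd).2.1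
      exact (List.nodup_cons.1 this).1
    rw [hz l1 h1, hz l2 h2]
    have h3 : dgate (allL (J k)) P S (c k γ - c k γ₀) x = true := by rw [key γ, hd]
    simp [h3]

theorem disp_snoc_none {k : ℕ} (x : Fin n → Bool) (P : List (Slot n (J k))) (ε : ZMod 3)
    (f : (Fin n → Bool) → Bool) :
    disp (ev x (P ++ [(none, ε, f)])) = disp (ev x P) := by
  rw [ev_append, disp_append]
  show disp (ev x P) + 0 = _
  rw [add_zero]

theorem disp_snoc_some {k : ℕ} (x : Fin n → Bool) (P : List (Slot n (J k))) (j : J k)
    (ε : ZMod 3) (f : (Fin n → Bool) → Bool) :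
    disp (ev x (P ++ [(some j, ε, f)])) =
      disp (ev x P) + Pi.single j (if f x = true then ε else 0) := by
  rw [ev_append, disp_append]
  show disp (ev x P) + (Pi.single j (if f x = true then ε else 0) + 0) = _
  rw [add_zero]

theorem run_blow {k : ℕ} (hc : ∀ k, Injective (c k)) (S : List (Slot n (J k)))
    (γ₀ : Option (J (k + 1))) (x : Fin n → Bool) (rest : List (Slot n (J k))) :
    ∀ (P : List (Slot n (J k))) (u : Conf J),
    run c (k + 1) (ev x (blow c S γ₀ P rest)) u =
      run c (k + 1) (tail c k (c k γ₀ - disp (ev x S) + disp (ev x P)) (ev x rest)) u := by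
  induction rest with
  | nil => intro P u; rfl
  | cons a rest ih =>
    intro P u
    obtain ⟨γ, ε, f⟩ := a
    rcases γ with _ | j
    · rw [blow_none, ev_append, run_append, run_block hc, ih, disp_snoc_none, ev_cons]
      rcases hd : decode c k (c k γ₀ - disp (ev x S) + disp (ev x P)) with _ | γ
      · rw [tail_none_none _ _ hd]
      · rw [tail_none_some _ _ hd, run_cons]
    · rw [blow_some, ih, disp_snoc_some, ev_cons]
      show _ = run c (k + 1) (tail c k _ ((some j, (if f x = true then ε else 0)) :: _)) u
      rw [tail_some, add_assoc]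

theorem cnt_block_le {k : ℕ} (hc : ∀ k, Injective (c k)) (S : List (Slot n (J k)))
    (γ₀ : Option (J (k + 1))) (P : List (Slot n (J k))) (ε : ZMod 3)
    (f : (Fin n → Bool) → Bool) (x : Fin n → Bool) :
    cnt x (block c S γ₀ P ε f) ≤ if f x = true then 1 else 0 := by
  unfold cnt block
  rw [List.countP_map]
  by_cases hf : f x = true
  · rw [if_pos hf]
    have h1 : (allL (Option (J (k + 1)))).countP
        ((fun s : Slot n (J (k + 1)) => s.2.2 x) ∘ fun γ => (γ, ε, fun x =>
          f x && dgate (allL (J k)) P S (c k γ - c k γ₀) x)) =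
        (allL (Option (J (k + 1)))).countP (fun γ =>
          decide (disp (ev x P) - disp (ev x S) = c k γ - c k γ₀)) := by
      apply List.countP_congr
      intro γ _
      simp only [Function.comp, hf, Bool.true_and, decide_eq_true_iff]
      exact dgate_allL P S _ x
    rw [h1]
    by_contra hlt
    push Not at hlt
    rw [List.countP_eq_length_filter] at hlt
    have hnd : ((allL (Option (J (k + 1)))).filter (fun γ =>
          decide (disp (ev x P) - disp (ev x S) = c k γ - c k γ₀))).Nodup :=
      (nodup_allL _).filter _
    generalize hL : ((allL (Option (J (k + 1)))).filter (fun γ =>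
          decide (disp (ev x P) - disp (ev x S) = c k γ - c k γ₀))) = L at hlt hnd
    match L, hlt, hnd, hL with
    | a :: b :: L, _, hnd, hL =>
      have ha : a ∈ ((allL (Option (J (k + 1)))).filter (fun γ =>
          decide (disp (ev x P) - disp (ev x S) = c k γ - c k γ₀))) := by
        rw [hL]; exact List.mem_cons_self
      have hb : b ∈ ((allL (Option (J (k + 1)))).filter (fun γ =>
          decide (disp (ev x P) - disp (ev x S) = c k γ - c k γ₀))) := by
        rw [hL]; exact List.mem_cons_of_mem _ List.mem_cons_self
      rw [List.mem_filter, decide_eq_true_iff] at ha hb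
      have hab : c k a = c k b := by
        have := ha.2.symm.trans hb.2
        exact sub_left_injective this
      have : a = b := hc k hab
      rw [this] at hnd
      exact (List.nodup_cons.1 hnd).1 List.mem_cons_self
  · rw [if_neg hf]
    apply le_of_eq
    rw [List.countP_eq_zero]
    intro γ _
    simp [hf]

theorem cnt_blow_le {k : ℕ} (hc : ∀ k, Injective (c k)) (S : List (Slot n (J k)))
    (γ₀ : Option (J (k + 1))) (x : Fin n → Bool) (rest : List (Slot n (J k))) :
    ∀ (P : List (Slot n (J k))), cnt x (blow c S γ₀ P rest) ≤ cnt x rest := by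
  induction rest with
  | nil => intro P; exact le_refl _
  | cons a rest ih =>
    intro P
    obtain ⟨γ, ε, f⟩ := a
    rcases γ with _ | j
    · rw [blow_none, cnt_append, cnt_cons]
      have h1 := cnt_block_le hc S γ₀ P ε f x
      have h2 := ih (P ++ [(none, ε, f)])
      show cnt x (block c S γ₀ P ε f) + cnt x (blow c S γ₀ (P ++ [(none, ε, f)]) rest) ≤
        cnt x rest + if f x = true then 1 else 0
      omega
    · rw [blow_some, cnt_cons]
      have h2 := ih (P ++ [(some j, ε, f)])
      omega

theorem length_blow_le {k W : ℕ} (hW : Fintype.card (Option (J (k + 1))) ≤ W)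
    (S : List (Slot n (J k)))
    (γ₀ : Option (J (k + 1))) (rest : List (Slot n (J k))) :
    ∀ (P : List (Slot n (J k))), (blow c S γ₀ P rest).length ≤ rest.length * W := by
  induction rest with
  | nil => intro P; rw [blow_nil]; simp
  | cons a rest ih =>
    intro P
    obtain ⟨γ, ε, f⟩ := a
    rw [List.length_cons, Nat.add_mul, one_mul]
    rcases γ with _ | j
    · rw [blow_none, List.length_append]
      have h2 := ih (P ++ [(none, ε, f)])
      have h1 : (block c S γ₀ P ε f).length ≤ W := by
        unfold block
        rw [List.length_map, length_allL]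
        exact hW
      omega
    · rw [blow_some]
      have h2 := ih (P ++ [(some j, ε, f)])
      omega

theorem blow_AC03 {k δ : ℕ} (hZ : 2 ≤ Z) (S : List (Slot n (J k)))
    (γ₀ : Option (J (k + 1))) (rest : List (Slot n (J k))) (hJ : Fintype.card (J k) ≤ Z)
    (hS : ∀ s ∈ S, AC03 n Z δ s.2.2) (hrest : ∀ s ∈ rest, AC03 n Z δ s.2.2) :
    ∀ (P : List (Slot n (J k))), (∀ s ∈ P, AC03 n Z δ s.2.2) →
      P.length + rest.length + S.length ≤ Z →
      ∀ s ∈ blow c S γ₀ P rest, AC03 n Z (δ + 3) s.2.2 := by
  induction rest with
  | nil => intro P _ _ s hs; exact absurd hs (List.not_mem_nil)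
  | cons a rest ih =>
    intro P hP hlen s hs
    obtain ⟨γ, ε, f⟩ := a
    have hf : AC03 n Z δ f := hrest _ List.mem_cons_self
    have ih' := ih (fun s hs => hrest s (List.mem_cons_of_mem _ hs)) (P ++ [(γ, ε, f)]) (by
        intro s hs
        rw [List.mem_append] at hs
        rcases hs with hs | hs
        · exact hP s hs
        · rw [List.mem_singleton] at hs
          rw [hs]
          exact hf) (by
        rw [List.length_append, List.length_singleton]
        rw [List.length_cons] at hlen
        omega)
    rcases γ with _ | j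
    · rw [blow_none, List.mem_append] at hs
      rcases hs with hs | hs
      · unfold block at hs
        rw [List.mem_map] at hs
        obtain ⟨γ, _, rfl⟩ := hs
        exact AC03.and2 hZ (AC03.mono (by omega) hf)
          (dgate_AC03 _ _ _ _ (by rw [length_allL]; exact hJ) (by
            rw [List.length_cons] at hlen
            omega) hP hS)
      · exact ih' s hs
    · rw [blow_some] at hs
      exact ih' s hs

end Pool.Agent.W_MP_458e77_lc
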