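import Mathlib

/-!
Tree-like circuits with unbounded (at most `Z`) fan-in AND gates and MOD3 gates.
-/

namespace Pool.Agent.W_MP_458e77_lc

/-- `AC03 n Z d f`: the Boolean function `f` of `n` variables is computed by a tree-like circuit of
depth at most `d` all of whose gates are AND gates or MOD3 gates of fan-in at most `Z`
(negations are free). -/
inductive AC03 (n Z : ℕ) : ℕ → ((Fin n → Bool) → Bool) → Prop
  | input (i : Fin n) : AC03 n Z 0 (fun x => x i)
  | const (b : Bool) : AC03 n Z 0 (fun _ => b)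
  | lift {d : ℕ} {f : (Fin n → Bool) → Bool} (h : AC03 n Z d f) : AC03 n Z (d + 1) f
  | not {d : ℕ} {f : (Fin n → Bool) → Bool} (h : AC03 n Z d f) : AC03 n Z d (fun x => !f x)
  | and {d m : ℕ} (hm : m ≤ Z) (f : Fin m → (Fin n → Bool) → Bool)
      (h : ∀ j, AC03 n Z d (f j)) : AC03 n Z (d + 1) (fun x => decide (∀ j, f j x = true))
  | mod3 {d m : ℕ} (hm : m ≤ Z) (c : Fin m → ZMod 3) (c0 : ZMod 3)
      (f : Fin m → (Fin n → Bool) → Bool) (h : ∀ j, AC03 n Z d (f j)) :
      AC03 n Z (d + 1) (fun x => decide ((∑ j, if f j x = true then c j else 0) = c0))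

/-- The parity function. -/
def parityFn (n : ℕ) (x : Fin n → Bool) : Bool :=
  decide (Odd (Finset.univ.filter fun i => x i = true).card)

end Pool.Agent.W_MP_458e77_lc
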