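import Mathlib

/-!
The sizes of the levels and the codes.
-/

namespace Pool.Agent.W_MP_458e77_lc

open Function

/-- size parameter of the levels -/
def Nn : ℕ → ℕ
  | 0 => 256
  | k + 1 => 2 ^ (Nn k / 4)

/-- coordinates of the level `k` -/
abbrev Jn (k : ℕ) : Type := Fin (Nn k) × Fin (Nn k)

theorem two_mul_le_pow {m : ℕ} (hm : 64 ≤ m) : 2 * (4 * m + 3) ≤ 2 ^ m := by
  induction m, hm using Nat.le_induction with
  | base => norm_num
  | succ m hm ih =>
    rw [pow_succ]
    omega

theorem Nn_ge (k : ℕ) : 256 ≤ Nn k := by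
  induction k with
  | zero => exact le_refl _
  | succ k ih =>
    show 256 ≤ 2 ^ (Nn k / 4)
    have h1 : 64 ≤ Nn k / 4 := by omega
    have := two_mul_le_pow h1
    omega

theorem Nn_double (k : ℕ) : 2 * Nn k ≤ Nn (k + 1) := by
  have h0 := Nn_ge k
  have h1 : 64 ≤ Nn k / 4 := by omega
  have h2 := two_mul_le_pow h1
  show 2 * Nn k ≤ 2 ^ (Nn k / 4)
  omega

theorem Nn_mono : Monotone Nn := by
  apply monotone_nat_of_le_succ
  intro k
  have := Nn_double k
  omega

theorem Nn_growth (k : ℕ) : 2 ^ (k + 8) ≤ Nn k := by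
  induction k with
  | zero => norm_num [Nn]
  | succ k ih =>
    have := Nn_double k
    rw [Nat.add_right_comm, pow_succ]
    omega

instance (k : ℕ) : NeZero (Nn k) := ⟨by have := Nn_ge k; omega⟩

instance (k : ℕ) : Nonempty (Jn k) := ⟨(0, 0)⟩

theorem card_opt (k : ℕ) : Fintype.card (Option (Jn k)) = Nn k * Nn k + 1 := by
  rw [Fintype.card_option, Fintype.card_prod, Fintype.card_fin]

theorem card_le (k : ℕ) : Fintype.card (Option (Jn (k + 1))) ≤ 2 ^ Nn k := by
  rw [card_opt]
  show 2 ^ (Nn k / 4) * 2 ^ (Nn k / 4) + 1 ≤ _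
  have h0 := Nn_ge k
  rw [← pow_add]
  calc 2 ^ (Nn k / 4 + Nn k / 4) + 1 ≤ 2 ^ (Nn k / 4 + Nn k / 4) + 2 ^ (Nn k / 4 + Nn k / 4) := by
        have : 1 ≤ 2 ^ (Nn k / 4 + Nn k / 4) := Nat.one_le_two_pow
        omega
    _ = 2 ^ (Nn k / 4 + Nn k / 4 + 1) := by rw [pow_succ]; ring
    _ ≤ 2 ^ Nn k := Nat.pow_le_pow_right (by norm_num) (by omega)

/-- number of a letter -/
noncomputable def encn (k : ℕ) (γ : Option (Jn (k + 1))) : ℕ :=
  (Fintype.equivFin (Option (Jn (k + 1))) γ : ℕ)

theorem encn_inj (k : ℕ) : Injective (encn k) := by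
  intro a b h
  unfold encn at h
  exact (Fintype.equivFin _).injective (Fin.ext h)

theorem encn_lt (k : ℕ) (γ : Option (Jn (k + 1))) : encn k γ < 2 ^ Nn k :=
  lt_of_lt_of_le (Fin.is_lt _) (card_le k)

/-- the code: every bit is repeated -/
noncomputable def cn (k : ℕ) (γ : Option (Jn (k + 1))) (p : Jn k) : ZMod 3 :=
  if (encn k γ).testBit p.1 then 1 else 0

theorem exists_bit {k : ℕ} {γ γ' : Option (Jn (k + 1))} (h : γ ≠ γ') :
    ∃ s : Fin (Nn k), (encn k γ).testBit s ≠ (encn k γ').testBit s := by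
  by_contra hcon
  push Not at hcon
  apply h
  apply encn_inj k
  apply Nat.eq_of_testBit_eq
  intro i
  by_cases hi : i < Nn k
  · exact hcon ⟨i, hi⟩
  · have h2 : 2 ^ Nn k ≤ 2 ^ i := Nat.pow_le_pow_right (by norm_num) (by omega)
    rw [Nat.testBit_lt_two_pow (lt_of_lt_of_le (encn_lt k γ) h2),
      Nat.testBit_lt_two_pow (lt_of_lt_of_le (encn_lt k γ') h2)]

theorem cn_dist (k : ℕ) (γ γ' : Option (Jn (k + 1))) (h : γ ≠ γ') :
    Nn k ≤ hammingDist (cn k γ) (cn k γ') := by
  obtain ⟨s, hs⟩ := exists_bit h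
  unfold hammingDist
  calc Nn k = (Finset.univ.image fun t : Fin (Nn k) => ((s, t) : Jn k)).card := by
        rw [Finset.card_image_of_injective _ (fun a b hab => (Prod.ext_iff.1 hab).2),
          Finset.card_univ, Fintype.card_fin]
    _ ≤ _ := by
        apply Finset.card_le_card
        intro p hp
        rw [Finset.mem_image] at hp
        obtain ⟨t, _, rfl⟩ := hp
        rw [Finset.mem_filter]
        refine ⟨Finset.mem_univ _, ?_⟩
        unfold cn
        show (if (encn k γ).testBit s = true then (1 : ZMod 3) else 0) ≠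
          (if (encn k γ').testBit s = true then (1 : ZMod 3) else 0)
        rcases h1 : (encn k γ).testBit s <;> rcases h2 : (encn k γ').testBit s
        · rw [h1, h2] at hs; exact absurd rfl hs
        · simp
        · simp
        · rw [h1, h2] at hs; exact absurd rfl hs

theorem cn_inj (k : ℕ) : Injective (cn k) := by
  intro γ γ' h
  by_contra hne
  have h1 := cn_dist k γ γ' hne
  rw [h, hammingDist_self] at h1
  have := Nn_ge k
  omega

theorem cn_ne_two (k : ℕ) (γ : Option (Jn (k + 1))) : cn k γ ≠ fun _ => 2 := by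
  intro h
  have h1 := congrFun h ((0, 0) : Jn k)
  unfold cn at h1
  split_ifs at h1
  · revert h1; decide
  · revert h1; decide

end Pool.Agent.W_MP_458e77_lc
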