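import Pool.Agent.W_MP_458e77_lc.Circuit

/-!
List versions of the gates.
-/

namespace Pool.Agent.W_MP_458e77_lc

variable {n Z : ℕ}

theorem AC03.mono {d d' : ℕ} (hd : d ≤ d') {f : (Fin n → Bool) → Bool} (h : AC03 n Z d f) :
    AC03 n Z d' f := by
  induction hd with
  | refl => exact h
  | step _ ih => exact AC03.lift ih

theorem AC03.of_input (d : ℕ) (i : Fin n) : AC03 n Z d (fun x => x i) :=
  AC03.mono (Nat.zero_le d) (AC03.input i)

theorem AC03.of_const (d : ℕ) (b : Bool) : AC03 n Z d (fun _ => b) :=
  AC03.mono (Nat.zero_le d) (AC03.const b)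

theorem AC03.andL {d : ℕ} (l : List ((Fin n → Bool) → Bool)) (hl : l.length ≤ Z)
    (h : ∀ f ∈ l, AC03 n Z d f) :
    AC03 n Z (d + 1) (fun x => decide (∀ f ∈ l, f x = true)) := by
  have h1 := AC03.and hl (fun j : Fin l.length => l.get j) (fun j => h _ (List.get_mem l j))
  have e : (fun x => decide (∀ j : Fin l.length, l.get j x = true)) =
      (fun x => decide (∀ f ∈ l, f x = true)) := by
    funext x
    congr 1
    apply propext
    constructor
    · intro hx f hf
      obtain ⟨j, hj⟩ := List.get_of_mem hf
      rw [← hj]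
      exact hx j
    · intro hx j
      exact hx _ (List.get_mem l j)
  rw [← e]
  exact h1

theorem AC03.mod3L {d : ℕ} (l : List (ZMod 3 × ((Fin n → Bool) → Bool))) (hl : l.length ≤ Z)
    (c0 : ZMod 3) (h : ∀ p ∈ l, AC03 n Z d p.2) :
    AC03 n Z (d + 1) (fun x => decide ((l.map (fun p => if p.2 x = true then p.1 else 0)).sum
      = c0)) := by
  have h1 := AC03.mod3 hl (fun j : Fin l.length => (l.get j).1) c0
    (fun j : Fin l.length => (l.get j).2) (fun j => h _ (List.get_mem l j))
  have e : (fun x => decide ((∑ j : Fin l.length, if (l.get j).2 x = true then (l.get j).1 else 0)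
      = c0)) = (fun x => decide ((l.map (fun p => if p.2 x = true then p.1 else 0)).sum
      = c0)) := by
    funext x
    congr 2
    rw [← List.sum_ofFn]
    congr 1
    exact List.ext_get (by simp) (by intro i h1 h2; simp)
  rw [← e]
  exact h1

theorem AC03.and2 {d : ℕ} (hZ : 2 ≤ Z) {f g : (Fin n → Bool) → Bool} (hf : AC03 n Z d f)
    (hg : AC03 n Z d g) : AC03 n Z (d + 1) (fun x => f x && g x) := by
  have h1 := AC03.andL [f, g] (by simpa using hZ) (by
    intro h hh
    rcases List.mem_cons.1 hh with rfl | hh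
    · exact hf
    · rcases List.mem_cons.1 hh with rfl | hh
      · exact hg
      · exact absurd hh (List.not_mem_nil))
  have e : (fun x => decide (∀ h ∈ [f, g], h x = true)) = (fun x => f x && g x) := by
    funext x
    simp
  rw [← e]
  exact h1

end Pool.Agent.W_MP_458e77_lc
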