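import Pool.Agent.W_MP_458e77_lc.Act

/-!
The group generated by the letters of level `0` is not solvable.
-/

namespace Pool.Agent.W_MP_458e77_lc

open Function
open scoped commutatorElement

variable {J : ℕ → Type} [∀ k, DecidableEq (J k)] [∀ k, Fintype (J k)]
variable (c : ∀ k, Option (J (k + 1)) → J k → ZMod 3)

set_option linter.unusedSectionVars false

theorem perm_apply_inv {X : Type} (f : Equiv.Perm X) (x : X) : f (f⁻¹ x) = x :=
  f.apply_symm_apply x

/-- the group generated by the letters of level `k` -/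
noncomputable def lev (k : ℕ) : Subgroup (Equiv.Perm (Conf J)) :=
  Subgroup.closure (Set.range fun γ : Option (J k) => letter c k γ 1)

variable {c}

theorem letter_mem (k : ℕ) (γ : Option (J k)) (ε : ZMod 3) : letter c k γ ε ∈ lev c k := by
  have h1 : letter c k γ 1 ∈ lev c k := Subgroup.subset_closure ⟨γ, rfl⟩
  have h : ∀ m : ℕ, letter c k γ (m : ZMod 3) ∈ lev c k := by
    intro m
    induction m with
    | zero => rw [Nat.cast_zero, letter_zero]; exact Subgroup.one_mem _
    | succ m ih =>
      rw [Nat.cast_succ, ← letter_mul]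
      exact Subgroup.mul_mem _ ih h1
  have h2 := h ε.val
  rw [ZMod.natCast_zmod_val] at h2
  exact h2

/-- translations of the coordinate `k` -/
def trans (k : ℕ) (v : J k → ZMod 3) : Equiv.Perm (Conf J) where
  toFun u := update u k (u k + v)
  invFun u := update u k (u k - v)
  left_inv u := by
    show update (update u k (u k + v)) k (update u k (u k + v) k - v) = u
    rw [update_self, update_idem, add_sub_cancel_right, update_eq_self]
  right_inv u := by
    show update (update u k (u k - v)) k (update u k (u k - v) k + v) = u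
    rw [update_self, update_idem, sub_add_cancel, update_eq_self]

theorem trans_apply (k : ℕ) (v : J k → ZMod 3) (u : Conf J) :
    trans k v u = update u k (u k + v) := rfl

theorem trans_inv_apply (k : ℕ) (v : J k → ZMod 3) (u : Conf J) :
    (trans k v)⁻¹ u = update u k (u k - v) := rfl

theorem trans_add (k : ℕ) (v w : J k → ZMod 3) : trans k (v + w) = trans k v * trans k w := by
  ext1 u
  rw [Equiv.Perm.mul_apply, trans_apply, trans_apply, trans_apply, update_self, update_idem,
    add_assoc, add_comm w v]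

theorem trans_zero (k : ℕ) : trans k (0 : J k → ZMod 3) = 1 := by
  ext1 u
  rw [trans_apply, add_zero, update_eq_self]
  rfl

theorem trans_mem (k : ℕ) (v : J k → ZMod 3) : trans k v ∈ lev c k := by
  rw [← Finset.univ_sum_single v]
  induction (Finset.univ : Finset (J k)) using Finset.induction_on with
  | empty => rw [Finset.sum_empty, trans_zero]; exact Subgroup.one_mem _
  | insert a s ha ih =>
    rw [Finset.sum_insert ha, trans_add]
    have h1 : letter c k (some a) (v a) = trans k (Pi.single a (v a)) := by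
      ext1 u
      rfl
    rw [← h1]
    exact Subgroup.mul_mem _ (letter_mem (c := c) k (some a) (v a)) ih

/-- permutations of the coordinates after `k` that are sections at `0` of elements of `A` -/
def lift (k : ℕ) (A : Subgroup (Equiv.Perm (Conf J))) : Subgroup (Equiv.Perm (Conf J)) where
  carrier := {h | (∀ u q, h (update u k q) = update (h u) k q) ∧ (∀ u, (h u) k = u k) ∧
    ∃ g ∈ A, ∀ u, u k = 0 → g u = h u}
  mul_mem' := by
    rintro h h' ⟨h1, h2, g, hg, h3⟩ ⟨h1', h2', g', hg', h3'⟩
    refine ⟨?_, ?_, g * g', A.mul_mem hg hg', ?_⟩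
    · intro u q
      rw [Equiv.Perm.mul_apply, Equiv.Perm.mul_apply, h1', h1]
    · intro u
      rw [Equiv.Perm.mul_apply, h2, h2']
    · intro u hu
      rw [Equiv.Perm.mul_apply, Equiv.Perm.mul_apply, h3' u hu, h3]
      rw [h2', hu]
  one_mem' := ⟨fun u q => rfl, fun u => rfl, 1, A.one_mem, fun u _ => rfl⟩
  inv_mem' := by
    rintro h ⟨h1, h2, g, hg, h3⟩
    have h4 : ∀ u, (h⁻¹ u) k = u k := by
      intro u
      have := h2 (h⁻¹ u)
      rw [perm_apply_inv] at this
      exact this.symm
    refine ⟨?_, h4, g⁻¹, A.inv_mem hg, ?_⟩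
    · intro u q
      rw [Equiv.Perm.inv_eq_iff_eq, h1, perm_apply_inv]
    · intro u hu
      rw [Equiv.Perm.inv_eq_iff_eq, h3 _ (by rw [h4, hu]), perm_apply_inv]

theorem mem_lift {k : ℕ} {A : Subgroup (Equiv.Perm (Conf J))} {h : Equiv.Perm (Conf J)} :
    h ∈ lift k A ↔ (∀ u q, h (update u k q) = update (h u) k q) ∧ (∀ u, (h u) k = u k) ∧
    ∃ g ∈ A, ∀ u, u k = 0 → g u = h u := Iff.rfl

theorem lift_bot (k : ℕ) : lift k (⊥ : Subgroup (Equiv.Perm (Conf J))) = ⊥ := by
  rw [eq_bot_iff]
  intro h hh
  obtain ⟨h1, h2, g, hg, h3⟩ := mem_lift.1 hh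
  rw [Subgroup.mem_bot] at hg ⊢
  subst hg
  ext1 u
  funext i
  by_cases hi : i = k
  · subst hi
    exact h2 u
  · have h4 := h3 (update u k 0) (update_self _ _ _)
    rw [h1] at h4
    have h5 := congrFun h4 i
    rw [update_of_ne hi] at h5
    rw [← h5]
    show (update u k 0) i = u i
    rw [update_of_ne hi]

theorem commutator_lift (k : ℕ) (A : Subgroup (Equiv.Perm (Conf J))) :
    ⁅lift k A, lift k A⁆ ≤ lift k ⁅A, A⁆ := by
  rw [Subgroup.commutator_le]
  intro h hh h' hh'
  have hm : ∀ {x y : Equiv.Perm (Conf J)} {g g' : Equiv.Perm (Conf J)},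
      (∀ u, (y u) k = u k) →
      (∀ u, u k = 0 → g u = x u) → (∀ u, u k = 0 → g' u = y u) →
      ∀ u, u k = 0 → (g * g') u = (x * y) u := by
    intro x y g g' h0 h1 h2 u hu
    rw [Equiv.Perm.mul_apply, Equiv.Perm.mul_apply, h2 u hu, h1 _ (by rw [h0, hu])]
  have hi : ∀ {x g : Equiv.Perm (Conf J)}, (∀ u, (x⁻¹ u) k = u k) →
      (∀ u, u k = 0 → g u = x u) → ∀ u, u k = 0 → g⁻¹ u = x⁻¹ u := by
    intro x g h0 h1 u hu
    rw [Equiv.Perm.inv_eq_iff_eq, h1 _ (by rw [h0, hu]), perm_apply_inv]
  obtain ⟨h1, h2, g, hg, h3⟩ := mem_lift.1 hh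
  obtain ⟨h1', h2', g', hg', h3'⟩ := mem_lift.1 hh'
  have hinv := (mem_lift.1 ((lift k A).inv_mem hh)).2.1
  have hinv' := (mem_lift.1 ((lift k A).inv_mem hh')).2.1
  have htot : ⁅h, h'⁆ ∈ lift k A := by
    rw [commutatorElement_def]
    exact (lift k A).mul_mem ((lift k A).mul_mem ((lift k A).mul_mem hh hh')
      ((lift k A).inv_mem hh)) ((lift k A).inv_mem hh')
  refine mem_lift.2 ⟨(mem_lift.1 htot).1, (mem_lift.1 htot).2.1, ⁅g, g'⁆,
    Subgroup.commutator_mem_commutator hg hg', ?_⟩
  rw [commutatorElement_def, commutatorElement_def]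
  exact hm hinv' (hm hinv (hm h2' h3 h3') (hi hinv h3)) (hi hinv' h3')

/-- the letters of the next level are sections of commutators -/
theorem lev_succ_le (hc : ∀ k, Injective (c k)) (k : ℕ) {z : J k → ZMod 3}
    (hz : ∀ γ, c k γ ≠ z) : lev c (k + 1) ≤ lift k ⁅lev c k, lev c k⁆ := by
  unfold lev
  rw [Subgroup.closure_le]
  rintro _ ⟨γ, rfl⟩
  show letter c (k + 1) γ 1 ∈ lift k ⁅lev c k, lev c k⁆
  rw [mem_lift]
  refine ⟨fun u q => act_update_lt (by omega) γ 1 u q, fun u => act_apply_lt (by omega) γ 1 u, ?_⟩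
  refine ⟨⁅(trans k (c k γ))⁻¹ * letter c k none 1 * trans k (c k γ), trans k (c k γ - z)⁆, ?_, ?_⟩
  · apply Subgroup.commutator_mem_commutator
    · exact Subgroup.mul_mem _ (Subgroup.mul_mem _ (Subgroup.inv_mem _ (trans_mem k _))
        (letter_mem k none 1)) (trans_mem k _)
    · exact trans_mem k _
  · intro u hu
    have hdz : decode c k z = none := by
      rcases hd : decode c k z with _ | γ'
      · rfl
      · rw [decode_eq_some hc] at hd
        exact absurd hd (hz γ')
    have hdg : decode c k (c k γ) = some γ := by rw [decode_eq_some hc]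
    rw [commutatorElement_def, mul_inv_rev, mul_inv_rev, inv_inv, letter_inv]
    simp only [Equiv.Perm.mul_apply]
    have s1 : (trans k (c k γ - z))⁻¹ u = update u k (z - c k γ) := by
      rw [trans_inv_apply, hu, zero_sub, neg_sub]
    have s2 : ∀ v w : J k → ZMod 3, trans k v (update u k w) = update u k (w + v) := by
      intro v w
      rw [trans_apply, update_self, update_idem]
    have s3 : ∀ v w : J k → ZMod 3, (trans k v)⁻¹ (update u k w) = update u k (w - v) := by
      intro v w
      rw [trans_inv_apply, update_self, update_idem]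
    have s4 : letter c k none (-1) (update u k z) = update u k z := by
      rw [letter_apply, act_of_decode_none (by rw [update_self]; exact hdz)]
    have s5 : letter c k none 1 (update u k (c k γ)) =
        update (act c (k + 1) γ 1 u) k (c k γ) := by
      rw [letter_apply, act_of_decode_some (γ := γ) (by rw [update_self]; exact hdg),
        act_update_lt (by omega)]
    have e1 : z - c k γ + c k γ = z := by abel
    have e2 : z - c k γ + (c k γ - z) = 0 := by abel
    rw [s1, s2, e1, s4, s3, s2, e2, s2, zero_add, s5, trans_inv_apply, update_self, update_idem,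
      sub_self, ← hu]
    have h5 : (act c (k + 1) γ 1 u) k = u k := act_apply_lt (by omega) γ 1 u
    rw [← h5, update_eq_self]
    rfl

/-- derived series inside a fixed group -/
def dser {X : Type} [Group X] (H : Subgroup X) : ℕ → Subgroup X
  | 0 => H
  | m + 1 => ⁅dser H m, dser H m⁆

theorem map_derivedSeries {X : Type} [Group X] (H : Subgroup X) (m : ℕ) :
    (derivedSeries H m).map H.subtype = dser H m := by
  induction m with
  | zero => 
    rw [derivedSeries_zero, ← MonoidHom.range_eq_map, Subgroup.range_subtype]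
    rfl
  | succ m ih =>
    rw [derivedSeries_succ, Subgroup.map_commutator, ih]
    rfl

theorem dser_succ_le (hc : ∀ k, Injective (c k)) (k : ℕ) {z : J k → ZMod 3}
    (hz : ∀ γ, c k γ ≠ z) (m : ℕ) :
    dser (lev c (k + 1)) m ≤ lift k (dser (lev c k) (m + 1)) := by
  induction m with
  | zero => exact lev_succ_le hc k hz
  | succ m ih =>
    show ⁅dser (lev c (k + 1)) m, dser (lev c (k + 1)) m⁆ ≤ _
    exact le_trans (Subgroup.commutator_mono ih ih) (commutator_lift k _)

theorem dser_ne_bot (hc : ∀ k, Injective (c k)) (hz : ∀ k, ∃ z, ∀ γ, c k γ ≠ z)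
    [∀ k, Nonempty (J k)] (m : ℕ) : ∀ k, dser (lev c k) m ≠ ⊥ := by
  induction m with
  | zero =>
    intro k h
    obtain ⟨j⟩ := (inferInstance : Nonempty (J k))
    have h1 : letter c k (some j) 1 ∈ (⊥ : Subgroup (Equiv.Perm (Conf J))) := by
      rw [← h]
      exact letter_mem k (some j) 1
    rw [Subgroup.mem_bot] at h1
    have h2 := congrFun (congrFun (DFunLike.congr_fun h1 (0 : Conf J)) k) j
    rw [letter_apply, act_some, update_self] at h2
    have h3 : ((0 : Conf J) k + Pi.single j 1 : J k → ZMod 3) j = 1 := by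
      rw [Pi.add_apply, Pi.single_eq_same]
      exact zero_add _
    rw [h3] at h2
    exact one_ne_zero h2
  | succ m ih =>
    intro k h
    obtain ⟨z, hz'⟩ := hz k
    have h1 := dser_succ_le hc k hz' m
    rw [h, lift_bot] at h1
    exact ih (k + 1) (le_bot_iff.1 h1)

theorem not_solvable (hc : ∀ k, Injective (c k)) (hz : ∀ k, ∃ z, ∀ γ, c k γ ≠ z)
    [∀ k, Nonempty (J k)] : ¬ Group.IsSolvable (lev c 0) := by
  intro h
  obtain ⟨m, hm⟩ := h.solvable
  have h1 := map_derivedSeries (lev c 0) m
  rw [hm, Subgroup.map_bot] at h1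
  exact dser_ne_bot hc hz m 0 h1.symm

theorem lev_fg : Group.FG (lev c 0) := by
  rw [Group.fg_iff_subgroup_fg]
  unfold lev
  exact (Subgroup.fg_iff _).2 ⟨_, rfl, Set.finite_range _⟩

end Pool.Agent.W_MP_458e77_lc
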