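import Pool.Agent.W_MP_458e77_lc.Base

/-!
Triviality of switched words is computed by circuits of bounded depth.
-/

namespace Pool.Agent.W_MP_458e77_lc

open Function

variable {J : ℕ → Type} [∀ k, DecidableEq (J k)] [∀ k, Fintype (J k)] {n Z : ℕ}
variable {c : ∀ k, Option (J (k + 1)) → J k → ZMod 3}

set_option linter.unusedSectionVars false

open Classical in
theorem triv_AC03 (hc : ∀ k, Injective (c k)) [∀ k, Nonempty (J k)] {M W i : ℕ} (hW : 2 ≤ W)
    (hbase : ∀ γ γ', γ ≠ γ' → M < hammingDist (c i γ) (c i γ')) :
    ∀ (R k δ : ℕ), k + R = i → (∀ k', k ≤ k' → k' ≤ i → Fintype.card (Option (J k')) ≤ W) →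
    ∀ L : List (Slot n (J k)), (∀ s ∈ L, AC03 n Z δ s.2.2) → (∀ x, cnt x L ≤ M) →
      2 * (L.length + 2) * W ^ (R + 1) ≤ Z →
      AC03 n Z (δ + 4 * R + 5) (fun x => decide (Triv c k (ev x L))) := by
  intro R
  induction R with
  | zero =>
    intro k δ hk hcard L hL hcnt hZ
    rw [Nat.add_zero] at hk
    subst hk
    have hlen : 2 * (L.length + 2) ≤ Z := by
      calc 2 * (L.length + 2) = 2 * (L.length + 2) * 1 := by ring
        _ ≤ 2 * (L.length + 2) * W ^ (0 + 1) := Nat.mul_le_mul_left _ (by
            rw [zero_add, pow_one]; omega)
        _ ≤ Z := hZ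
    set g0 : (Fin n → Bool) → Bool := dgate (occ (L ++ [])) L [] 0 with hg0
    set g : List (Slot n (J k)) → (Fin n → Bool) → Bool := fun S x =>
      decide (sval x (slist S [] L) = 0) with hg
    have h0 : AC03 n Z (δ + 4) g0 := AC03.mono (by omega)
      (dgate_AC03 (δ := δ) _ _ _ _ (by
        have := occ_length (L ++ [])
        rw [List.append_nil] at this ⊢
        omega) (by rw [List.length_nil]; omega) hL (by
          intro s hs; exact absurd hs (List.not_mem_nil)))
    have h1 : ∀ S ∈ L.inits, AC03 n Z (δ + 4) (g S) := by
      intro S hS
      rw [List.mem_inits] at hS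
      apply AC03.mod3L (d := δ + 3) (slist S [] L)
      · have := slist_length S L []
        omega
      · intro p hp
        apply slist_AC03 (by omega) S L (fun s hs => hL s (hS.subset hs)) hL [] (by
          intro s hs; exact absurd hs (List.not_mem_nil)) _ p hp
        have := hS.length_le
        rw [List.length_nil]
        omega
    have h2 := AC03.andL (Z := Z) (d := δ + 4) (g0 :: L.inits.map g) (by
      rw [List.length_cons, List.length_map, List.length_inits]
      omega) (by
      intro f hf
      rcases List.mem_cons.1 hf with rfl | hf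
      · exact h0
      · obtain ⟨S, hS, rfl⟩ := List.mem_map.1 hf
        exact h1 S hS)
    have e : (fun x => decide (∀ f ∈ g0 :: L.inits.map g, f x = true)) =
        (fun x => decide (Triv c k (ev x L))) := by
      funext x
      apply Bool.decide_congr
      rw [triv_base hc hbase x L (hcnt x), List.forall_mem_cons]
      apply and_congr
      · rw [hg0, dgate_occ]
        rfl
      · rw [List.forall_mem_map]
        apply forall_congr'
        intro S
        apply imp_congr_right
        intro _
        rw [hg]
        exact decide_eq_true_iff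
    rw [← e]
    exact h2
  | succ R ih =>
    intro k δ hk hcard L hL hcnt hZ
    have hW1 : 1 ≤ W ^ (R + 1) := Nat.one_le_pow _ _ (by omega)
    have hlen2 : 2 * (L.length + 2) * W ≤ Z := by
      calc 2 * (L.length + 2) * W = 2 * (L.length + 2) * W * 1 := by ring
        _ ≤ 2 * (L.length + 2) * W * W ^ (R + 1) := Nat.mul_le_mul_left _ hW1
        _ = 2 * (L.length + 2) * W ^ (R + 1 + 1) := by ring
        _ ≤ Z := hZ
    have hlen : 2 * (L.length + 2) * 2 ≤ Z := le_trans (Nat.mul_le_mul_left _ hW) hlen2
    have hWZ : W ≤ Z := by
      calc W = 1 * W := by ring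
        _ ≤ 2 * (L.length + 2) * W := Nat.mul_le_mul_right _ (by omega)
        _ ≤ Z := hlen2
    set g0 : (Fin n → Bool) → Bool := dgate (occ (L ++ [])) L [] 0 with hg0
    set g : List (Slot n (J k)) → Option (J (k + 1)) → (Fin n → Bool) → Bool := fun S γ₀ x =>
      decide (Triv c (k + 1) (ev x (blow c S γ₀ [] L))) with hg
    have h0 : AC03 n Z (δ + 4 * (R + 1) + 4) g0 := AC03.mono (by omega)
      (dgate_AC03 (δ := δ) _ _ _ _ (by
        have := occ_length (L ++ [])
        rw [List.append_nil] at this ⊢
        omega) (by rw [List.length_nil]; omega) hL (by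
          intro s hs; exact absurd hs (List.not_mem_nil)))
    have h1 : ∀ S ∈ L.inits, ∀ γ₀, AC03 n Z (δ + 4 * (R + 1) + 4) (g S γ₀) := by
      intro S hS γ₀
      rw [List.mem_inits] at hS
      have h3 := ih (k + 1) (δ + 3) (by omega) (fun k' h1 h2 => hcard k' (by omega) h2)
        (blow c S γ₀ [] L)
        (blow_AC03 (by omega) S γ₀ L (by
          have h5 := hcard k (le_refl k) (by omega)
          rw [Fintype.card_option] at h5
          omega) (fun s hs => hL s (hS.subset hs)) hL [] (by
          intro s hs; exact absurd hs (List.not_mem_nil)) (by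
          have := hS.length_le
          rw [List.length_nil]
          omega))
        (fun x => le_trans (cnt_blow_le hc S γ₀ x L []) (hcnt x)) (by
          have h6 := length_blow_le (c := c) (hcard (k + 1) (by omega) (by omega)) S γ₀ L []
          calc 2 * ((blow c S γ₀ [] L).length + 2) * W ^ (R + 1)
              ≤ 2 * ((L.length + 2) * W) * W ^ (R + 1) := by
                apply Nat.mul_le_mul_right
                apply Nat.mul_le_mul_left
                rw [Nat.add_mul]
                omega
            _ = 2 * (L.length + 2) * W ^ (R + 1 + 1) := by ring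
            _ ≤ Z := hZ)
      have e5 : δ + 3 + 4 * R + 5 = δ + 4 * (R + 1) + 4 := by ring
      rw [e5] at h3
      exact h3
    have h2 := AC03.andL (Z := Z) (d := δ + 4 * (R + 1) + 4)
      (g0 :: L.inits.flatMap (fun S => (allL (Option (J (k + 1)))).map (g S))) (by
      rw [List.length_cons]
      have h7 : (L.inits.flatMap (fun S => (allL (Option (J (k + 1)))).map (g S))).length ≤
          (L.length + 1) * W := by
        rw [List.length_flatMap]
        have h8 : (L.inits.map (fun S => ((allL (Option (J (k + 1)))).map (g S)).length)) =
            List.replicate (L.length + 1) (Fintype.card (Option (J (k + 1)))) := by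
          rw [List.eq_replicate_iff]
          constructor
          · rw [List.length_map, List.length_inits]
          · intro b hb
            rw [List.mem_map] at hb
            obtain ⟨S, _, rfl⟩ := hb
            rw [List.length_map, length_allL]
        rw [h8, List.sum_replicate, smul_eq_mul]
        exact Nat.mul_le_mul_left _ (hcard (k + 1) (by omega) (by omega))
      have h9 : (L.length + 1) * W + W ≤ Z := by
        calc (L.length + 1) * W + W = (L.length + 2) * W := by ring
          _ ≤ 2 * (L.length + 2) * W := Nat.mul_le_mul_right _ (by omega)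
          _ ≤ Z := hlen2
      omega) (by
      intro f hf
      rcases List.mem_cons.1 hf with rfl | hf
      · exact h0
      · obtain ⟨S, hS, hf⟩ := List.mem_flatMap.1 hf
        obtain ⟨γ₀, _, rfl⟩ := List.mem_map.1 hf
        exact h1 S hS γ₀)
    have e : (fun x => decide (∀ f ∈ g0 :: L.inits.flatMap
        (fun S => (allL (Option (J (k + 1)))).map (g S)), f x = true)) =
        (fun x => decide (Triv c k (ev x L))) := by
      funext x
      apply Bool.decide_congr
      rw [triv_iff_prefix hc x L, List.forall_mem_cons]
      apply and_congr
      · rw [hg0, dgate_occ]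
        rfl
      · have key : ∀ S γ₀, g S γ₀ x = true ↔
            Triv c (k + 1) (tail c k (c k γ₀ - disp (ev x S)) (ev x L)) := by
          intro S γ₀
          have e1 : g S γ₀ x = true ↔ Triv c (k + 1) (ev x (blow c S γ₀ [] L)) :=
            decide_eq_true_iff
          rw [e1]
          unfold Triv
          apply forall_congr'
          intro u
          have h1 := run_blow hc S γ₀ x L [] u
          have h4 : c k γ₀ - disp (ev x S) + disp (ev x ([] : List (Slot n (J k)))) =
              c k γ₀ - disp (ev x S) := by
            show c k γ₀ - disp (ev x S) + 0 = _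
            rw [add_zero]
          rw [h4] at h1
          rw [h1]
        constructor
        · intro h S hS γ₀
          rw [← key]
          apply h
          rw [List.mem_flatMap]
          exact ⟨S, hS, List.mem_map_of_mem (mem_allL γ₀)⟩
        · intro h f hf
          obtain ⟨S, hS, hf⟩ := List.mem_flatMap.1 hf
          obtain ⟨γ₀, _, rfl⟩ := List.mem_map.1 hf
          rw [key]
          exact h S hS γ₀
    rw [← e]
    exact h2

end Pool.Agent.W_MP_458e77_lc
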