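import Pool.Agent.W_MP_458e77_lc.OracleDef
import Pool.Agent.W_MP_458e77_lc.Main
import Pool.Agent.W_MP_458e77_lc.Group

/-!
Oracle gates for the word problem are replaced by circuits.
-/

namespace Pool.Agent.W_MP_458e77_lc

open Function

variable {J : ℕ → Type} [∀ k, DecidableEq (J k)] [∀ k, Fintype (J k)] {n Z : ℕ}
variable {c : ∀ k, Option (J (k + 1)) → J k → ZMod 3}

set_option linter.unusedSectionVars false

theorem exists_inv_word (w : List (Option (J 0) × ZMod 3)) :
    ∃ w', ∀ u, run c 0 w' (run c 0 w u) = u := by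
  induction w with
  | nil => exact ⟨[], fun u => rfl⟩
  | cons a w ih =>
    obtain ⟨w', hw'⟩ := ih
    refine ⟨w' ++ [(a.1, -a.2)], fun u => ?_⟩
    rw [run_append]
    show act c 0 a.1 (-a.2) (run c 0 w' (run c 0 w (act c 0 a.1 a.2 u))) = u
    rw [hw', act_add, neg_add_cancel, act_zero]

theorem exists_word {h : Equiv.Perm (Conf J)} (hh : h ∈ lev c 0) :
    ∃ w, ∀ u, run c 0 w u = h u := by
  unfold lev at hh
  induction hh using Subgroup.closure_induction with
  | mem x hx =>
    obtain ⟨γ, rfl⟩ := hx
    exact ⟨[(γ, 1)], fun u => rfl⟩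
  | one => exact ⟨[], fun u => rfl⟩
  | mul x y _ _ hx hy =>
    obtain ⟨w, hw⟩ := hx
    obtain ⟨w', hw'⟩ := hy
    refine ⟨w' ++ w, fun u => ?_⟩
    rw [run_append, hw', hw]
    rfl
  | inv x _ hx =>
    obtain ⟨w, hw⟩ := hx
    obtain ⟨w', hw'⟩ := exists_inv_word (c := c) w
    refine ⟨w', fun u => ?_⟩
    have h1 := hw' (x⁻¹ u)
    rw [hw, perm_apply_inv] at h1
    exact h1

/-- the switched word of an oracle gate -/
def slotsOf {A X : Type} (rep : A → List (Option X × ZMod 3)) :
    List (A × ((Fin n → Bool) → Bool)) → List (Slot n X)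
  | [] => []
  | p :: l => slotsOf rep l ++ (rep p.1).map fun a => (a.1, a.2, p.2)

theorem run_slotsOf {A : Type} (g : A → lev c 0) (rep : A → List (Option (J 0) × ZMod 3))
    (hrep : ∀ a u, run c 0 (rep a) u = (g a : Equiv.Perm (Conf J)) u) (x : Fin n → Bool)
    (l : List (A × ((Fin n → Bool) → Bool))) (u : Conf J) :
    run c 0 (ev x (slotsOf rep l)) u =
      (((((l.filter fun p => p.2 x).map Prod.fst).map g).prod : lev c 0) :
        Equiv.Perm (Conf J)) u := by
  induction l generalizing u with
  | nil => rfl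
  | cons p l ih =>
    show run c 0 (ev x (slotsOf rep l ++ (rep p.1).map fun a => (a.1, a.2, p.2))) u = _
    rw [ev_append, run_append, ih]
    by_cases hp : p.2 x = true
    · have h1 : ev x ((rep p.1).map fun a => ((a.1, a.2, p.2) : Slot n (J 0))) = rep p.1 := by
        unfold ev
        rw [List.map_map]
        conv_rhs => rw [← List.map_id (rep p.1)]
        apply List.map_congr_left
        intro a _
        simp [hp]
      rw [h1, hrep, List.filter_cons, if_pos hp, List.map_cons, List.map_cons, List.prod_cons]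
      rfl
    · rw [List.filter_cons, if_neg hp]
      apply run_zero_list
      intro a ha
      unfold ev at ha
      rw [List.map_map, List.mem_map] at ha
      obtain ⟨b, _, rfl⟩ := ha
      simp [hp]

theorem mem_WP_iff {A : Type} (g : A → lev c 0) (rep : A → List (Option (J 0) × ZMod 3))
    (hrep : ∀ a u, run c 0 (rep a) u = (g a : Equiv.Perm (Conf J)) u) (x : Fin n → Bool)
    (l : List (A × ((Fin n → Bool) → Bool))) :
    (l.filter fun p => p.2 x).map Prod.fst ∈ WP g ↔ Triv c 0 (ev x (slotsOf rep l)) := by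
  unfold WP Triv
  rw [Set.mem_ofPred_eq]
  constructor
  · intro h u
    rw [run_slotsOf g rep hrep, h]
    rfl
  · intro h
    apply Subtype.ext
    ext1 u
    rw [← run_slotsOf g rep hrep, h]
    rfl

theorem length_slotsOf {A : Type} (rep : A → List (Option (J 0) × ZMod 3)) {C : ℕ}
    (hC : ∀ a, (rep a).length ≤ C) (l : List (A × ((Fin n → Bool) → Bool))) :
    (slotsOf rep l).length ≤ C * l.length := by
  induction l with
  | nil => exact Nat.zero_le _
  | cons p l ih =>
    show (slotsOf rep l ++ (rep p.1).map fun a => (a.1, a.2, p.2)).length ≤ _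
    rw [List.length_append, List.length_map, List.length_cons, Nat.mul_add, mul_one]
    have := hC p.1
    omega

theorem mem_slotsOf {A : Type} (rep : A → List (Option (J 0) × ZMod 3))
    (l : List (A × ((Fin n → Bool) → Bool))) (s : Slot n (J 0)) (hs : s ∈ slotsOf rep l) :
    ∃ p ∈ l, s.2.2 = p.2 := by
  induction l with
  | nil => exact absurd hs (List.not_mem_nil)
  | cons p l ih =>
    have hs' : s ∈ slotsOf rep l ++ (rep p.1).map fun a => ((a.1, a.2, p.2) : Slot n (J 0)) := hs
    rw [List.mem_append, List.mem_map] at hs'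
    rcases hs' with h | ⟨a, _, rfl⟩
    · obtain ⟨q, hq, h⟩ := ih h
      exact ⟨q, List.mem_cons_of_mem _ hq, h⟩
    · exact ⟨p, List.mem_cons_self, rfl⟩

theorem OAC0.toAC03 (hc : ∀ k, Injective (c k)) [∀ k, Nonempty (J k)] {A : Type}
    (g : A → lev c 0) (rep : A → List (Option (J 0) × ZMod 3))
    (hrep : ∀ a u, run c 0 (rep a) u = (g a : Equiv.Perm (Conf J)) u) {C : ℕ}
    (hC : ∀ a, (rep a).length ≤ C) {M W i S : ℕ} (hW : 2 ≤ W)
    (hbase : ∀ γ γ', γ ≠ γ' → M < hammingDist (c i γ) (c i γ'))
    (hcard : ∀ k', k' ≤ i → Fintype.card (Option (J k')) ≤ W)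
    (hM : C * S ≤ M) (hSZ : S ≤ Z) (hZ : 2 * (M + 2) * W ^ (i + 1) ≤ Z)
    {d : ℕ} {f : (Fin n → Bool) → Bool} (h : OAC0 (WP g) n S d f) :
    AC03 n Z (d * (4 * i + 5)) f := by
  classical
  induction h with
  | input i => exact AC03.of_input _ i
  | const b => exact AC03.of_const _ b
  | @lift d f h ih => exact AC03.mono (by rw [Nat.add_mul]; omega) ih
  | @not d f h ih => exact AC03.mono (by rw [Nat.add_mul]; omega) (AC03.not ih)
  | @and d f l hl h hf ih =>
    have h1 := AC03.andL (Z := Z) l (hl.trans hSZ) ih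
    have e : (fun x => decide (∀ f ∈ l, f x = true)) = f := by
      funext x
      rw [Bool.eq_iff_iff, decide_eq_true_iff, hf]
    rw [e] at h1
    exact AC03.mono (by rw [Nat.add_mul]; omega) h1
  | @or d f l hl h hf ih =>
    have h1 := AC03.andL (Z := Z) (l.map fun g x => !g x) (by
      rw [List.length_map]; exact hl.trans hSZ) (by
      intro f hf
      obtain ⟨g, hg, rfl⟩ := List.mem_map.1 hf
      exact AC03.not (ih g hg))
    have h2 := AC03.not h1
    have e : (fun x => !decide (∀ f ∈ l.map fun g x => !g x, f x = true)) = f := by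
      funext x
      rw [Bool.eq_iff_iff, hf, Bool.not_eq_true', decide_eq_false_iff_not]
      constructor
      · intro h
        by_contra hcon
        apply h
        intro f hf
        obtain ⟨g, hg, rfl⟩ := List.mem_map.1 hf
        rw [Bool.not_eq_true']
        rcases hgx : g x with _ | _
        · rfl
        · exact absurd ⟨g, hg, hgx⟩ hcon
      · rintro ⟨g, hg, hgx⟩ h
        have := h _ (List.mem_map_of_mem hg)
        simp only [hgx, Bool.not_true] at this
        exact absurd this (by simp)
    rw [e] at h2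
    exact AC03.mono (by rw [Nat.add_mul]; omega) h2
  | @oracle d f l hl h hf ih =>
    have hlen := length_slotsOf rep hC l
    have hlen2 : (slotsOf rep l).length ≤ M :=
      hlen.trans (le_trans (Nat.mul_le_mul_left _ hl) hM)
    have h1 := triv_AC03 (n := n) (Z := Z) (M := M) (W := W) hc hW hbase i 0 (d * (4 * i + 5))
      (by omega) (fun k' _ hk' => hcard k' hk') (slotsOf rep l) (by
        intro s hs
        obtain ⟨p, hp, h⟩ := mem_slotsOf rep l s hs
        rw [h]
        exact ih p hp) (by
        intro x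
        exact le_trans (List.countP_le_length) hlen2) (by
        refine le_trans ?_ hZ
        apply Nat.mul_le_mul_right
        omega)
    have e : (fun x => decide (Triv c 0 (ev x (slotsOf rep l)))) = f := by
      funext x
      rw [Bool.eq_iff_iff, decide_eq_true_iff, hf, mem_WP_iff g rep hrep]
    have h2 : AC03 n Z (d * (4 * i + 5) + 4 * i + 5) f := by
      rw [← e]
      convert h1
    exact AC03.mono (by rw [Nat.add_mul]; omega) h2

end Pool.Agent.W_MP_458e77_lc
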