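import Pool.Agent.W_MP_458e77_lc.Circuit

/-!
The Razborov-Smolensky lower bound for parity, explicit form: parity of `n` bits has no
tree-like circuit of depth `d` and fan-in at most `Z` with AND and MOD3 gates, if
`10 (Z + 1) ^ d < 3 ^ l` and `100 ((2 l) ^ d + 1) ^ 2 ≤ n`.
-/

namespace Pool.Agent.W_MP_458e77_lc

open Finset

/-- The value of a Boolean in `ZMod 3`. -/
def bv (b : Bool) : ZMod 3 := if b = true then 1 else 0

/-- The multilinear monomial of a set of variables. -/
def mono {n : ℕ} (S : Finset (Fin n)) (x : Fin n → Bool) : ZMod 3 := ∏ i ∈ S, bv (x i)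

/-- Functions given by polynomials of degree at most `D` over `ZMod 3`. -/
def LowDeg (n D : ℕ) : Submodule (ZMod 3) ((Fin n → Bool) → ZMod 3) :=
  Submodule.span (ZMod 3) (mono '' {S : Finset (Fin n) | S.card ≤ D})

theorem mono_eq {n : ℕ} (S : Finset (Fin n)) (x : Fin n → Bool) :
    mono S x = if ∀ i ∈ S, x i = true then 1 else 0 := by
  unfold mono bv
  rw [Finset.prod_boole]
  split_ifs <;> rfl

theorem mono_mul {n : ℕ} (S T : Finset (Fin n)) : mono S * mono T = mono (S ∪ T) := by
  funext x
  simp only [Pi.mul_apply, mono_eq, Finset.mem_union]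
  by_cases h1 : ∀ i ∈ S, x i = true
  · by_cases h2 : ∀ i ∈ T, x i = true
    · have h3 : ∀ i, i ∈ S ∨ i ∈ T → x i = true := fun i hi => hi.elim (h1 i) (h2 i)
      rw [if_pos h1, if_pos h2, if_pos h3, one_mul]
    · have h3 : ¬ ∀ i, i ∈ S ∨ i ∈ T → x i = true := fun h => h2 fun i hi => h i (Or.inr hi)
      rw [if_neg h2, if_neg h3, mul_zero]
  · have h3 : ¬ ∀ i, i ∈ S ∨ i ∈ T → x i = true := fun h => h1 fun i hi => h i (Or.inl hi)
    rw [if_neg h1, if_neg h3, zero_mul]

theorem LowDeg.mono' {n a b : ℕ} (h : a ≤ b) : LowDeg n a ≤ LowDeg n b := by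
  apply Submodule.span_mono
  apply Set.image_mono
  intro S hS
  exact le_trans hS h

theorem LowDeg.mul {n a b : ℕ} {p q : (Fin n → Bool) → ZMod 3} (hp : p ∈ LowDeg n a)
    (hq : q ∈ LowDeg n b) : p * q ∈ LowDeg n (a + b) := by
  have h := Submodule.mul_mem_mul hp hq
  unfold LowDeg at h
  rw [Submodule.span_mul_span] at h
  refine Submodule.span_le.2 ?_ h
  rintro _ ⟨_, ⟨S, hS, rfl⟩, _, ⟨T, hT, rfl⟩, rfl⟩
  refine Submodule.subset_span ⟨S ∪ T, ?_, (mono_mul S T).symm⟩
  exact (Finset.card_union_le S T).trans (add_le_add hS hT)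

theorem LowDeg.one (n a : ℕ) : (1 : (Fin n → Bool) → ZMod 3) ∈ LowDeg n a := by
  refine Submodule.subset_span ⟨∅, by simp, ?_⟩
  funext x
  simp [mono]

theorem LowDeg.const (n a : ℕ) (c : ZMod 3) :
    (fun _ => c : (Fin n → Bool) → ZMod 3) ∈ LowDeg n a := by
  have : (fun _ => c : (Fin n → Bool) → ZMod 3) = c • 1 := by
    funext x; simp
  rw [this]
  exact Submodule.smul_mem _ _ (LowDeg.one n a)

theorem LowDeg.var {n : ℕ} (i : Fin n) : (fun x => bv (x i)) ∈ LowDeg n 1 := by
  refine Submodule.subset_span ⟨{i}, by simp, ?_⟩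
  funext x
  simp [mono]

theorem LowDeg.sum {n a : ℕ} {ι : Type*} (s : Finset ι) {p : ι → (Fin n → Bool) → ZMod 3}
    (hp : ∀ i ∈ s, p i ∈ LowDeg n a) : (fun x => ∑ i ∈ s, p i x) ∈ LowDeg n a := by
  have : (fun x => ∑ i ∈ s, p i x) = ∑ i ∈ s, p i := by
    funext x; simp
  rw [this]
  exact Submodule.sum_mem _ hp

theorem LowDeg.prod {n a : ℕ} {ι : Type*} (s : Finset ι) {p : ι → (Fin n → Bool) → ZMod 3}
    (hp : ∀ i ∈ s, p i ∈ LowDeg n a) : (fun x => ∏ i ∈ s, p i x) ∈ LowDeg n (s.card * a) := by
  classical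
  have : (fun x => ∏ i ∈ s, p i x) = ∏ i ∈ s, p i := by
    funext x; simp
  rw [this]
  clear this
  induction s using Finset.induction_on with
  | empty => simpa using LowDeg.one n 0
  | insert i s hi ih =>
    rw [Finset.prod_insert hi, Finset.card_insert_of_notMem hi, add_comm, add_mul, one_mul]
    refine LowDeg.mul (hp i (Finset.mem_insert_self _ _)) (ih fun j hj => ?_)
    exact hp j (Finset.mem_insert_of_mem hj)

theorem sq_F3 (y : ZMod 3) : y * y = if y = 0 then 0 else 1 := by
  revert y; decide

/-! ### Approximation of circuits by low degree polynomials -/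

theorem card_ker_le {m : ℕ} (q : Fin m → ZMod 3) (j : Fin m) (hj : q j ≠ 0) :
    (Finset.univ.filter fun r : Fin m → ZMod 3 => ∑ j, r j * q j = 0).card * 3 ≤ 3 ^ m := by
  classical
  set K := Finset.univ.filter fun r : Fin m → ZMod 3 => ∑ j, r j * q j = 0 with hK
  have hinj : Set.InjOn (fun rc : (Fin m → ZMod 3) × ZMod 3 => rc.1 + Pi.single j rc.2)
      (K ×ˢ (Finset.univ : Finset (ZMod 3)) : Finset _) := by
    rintro ⟨r, c⟩ hr ⟨r', c'⟩ hr' h
    simp only [Finset.coe_product, Set.mem_prod, Finset.mem_coe, hK, Finset.mem_filter,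
      Finset.mem_univ, true_and, and_true] at hr hr'
    simp only at h
    have key : ∀ (s : Fin m → ZMod 3) (c : ZMod 3),
        ∑ i, (s + Pi.single j c : Fin m → ZMod 3) i * q i = ∑ i, s i * q i + c * q j := by
      intro s c
      simp only [Pi.add_apply, add_mul, Finset.sum_add_distrib]
      congr 1
      rw [Finset.sum_eq_single j]
      · simp
      · intro b _ hb
        simp [hb]
      · simp
    have h1 := key r c
    have h2 := key r' c'
    rw [h, h2, hr, hr', zero_add, zero_add] at h1
    have hc : c' = c := mul_right_cancel₀ hj h1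
    subst hc
    have hr2 : r = r' := add_right_cancel h
    rw [hr2]
  have h := Finset.card_le_card_of_injOn _ (fun _ _ => Finset.mem_univ _) hinj
  rw [Finset.card_product, Finset.card_univ, Finset.card_univ] at h
  simpa using h

/-- The number of tuples of `l` vectors all orthogonal to a nonzero vector. -/
theorem card_ker_pow_le {m : ℕ} (l : ℕ) (q : Fin m → ZMod 3) (j : Fin m) (hj : q j ≠ 0) :
    (Finset.univ.filter fun r : Fin l → Fin m → ZMod 3 => ∀ k, ∑ j, r k j * q j = 0).card * 3 ^ l
      ≤ 3 ^ (m * l) := by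
  classical
  have h1 : (Finset.univ.filter fun r : Fin l → Fin m → ZMod 3 => ∀ k, ∑ j, r k j * q j = 0)
      = Fintype.piFinset fun _ : Fin l =>
        (Finset.univ.filter fun r : Fin m → ZMod 3 => ∑ j, r j * q j = 0) := by
    ext r
    simp
  rw [h1, Fintype.card_piFinset]
  simp only [Finset.prod_const, Finset.card_univ, Fintype.card_fin]
  rw [← mul_pow, pow_mul]
  exact Nat.pow_le_pow_left (card_ker_le q j hj) l

/-- The approximating polynomial of an AND gate. -/
theorem exists_good_r {n m : ℕ} (l : ℕ) (q : Fin m → (Fin n → Bool) → ZMod 3) :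
    ∃ r : Fin l → Fin m → ZMod 3,
      (Finset.univ.filter fun x : Fin n → Bool =>
        (∃ j, q j x ≠ 0) ∧ ∀ k, ∑ j, r k j * q j x = 0).card * 3 ^ l ≤ 2 ^ n := by
  classical
  by_contra hcon
  push Not at hcon
  set B : (Fin l → Fin m → ZMod 3) → Finset (Fin n → Bool) := fun r =>
    Finset.univ.filter fun x : Fin n → Bool =>
        (∃ j, q j x ≠ 0) ∧ ∀ k, ∑ j, r k j * q j x = 0 with hB
  have h1 : ∑ r : Fin l → Fin m → ZMod 3, (B r).card * 3 ^ l ≤ 2 ^ n * 3 ^ (m * l) := by
    have h2 : ∑ r : Fin l → Fin m → ZMod 3, (B r).card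
        = ∑ x : Fin n → Bool, (Finset.univ.filter fun r : Fin l → Fin m → ZMod 3 =>
            (∃ j, q j x ≠ 0) ∧ ∀ k, ∑ j, r k j * q j x = 0).card := by
      simp only [hB, Finset.card_filter]
      exact Finset.sum_comm
    rw [← Finset.sum_mul, h2, Finset.sum_mul]
    calc _ ≤ ∑ x : Fin n → Bool, 3 ^ (m * l) := by
          apply Finset.sum_le_sum
          intro x _
          by_cases hx : ∃ j, q j x ≠ 0
          · obtain ⟨j, hj⟩ := hx
            refine le_trans (Nat.mul_le_mul_right _ (Finset.card_le_card ?_))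
              (card_ker_pow_le l (fun j => q j x) j hj)
            intro r hr
            simp only [Finset.mem_filter, Finset.mem_univ, true_and] at hr ⊢
            exact hr.2
          · rw [Finset.filter_false_of_mem]
            · simp
            · intro r _ h
              exact hx h.1
      _ = 2 ^ n * 3 ^ (m * l) := by simp
  have h3 : ∑ r : Fin l → Fin m → ZMod 3, 2 ^ n < ∑ r : Fin l → Fin m → ZMod 3,
      (B r).card * 3 ^ l := by
    apply Finset.sum_lt_sum_of_nonempty Finset.univ_nonempty
    intro r _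
    exact hcon r
  have h4 : ∑ r : Fin l → Fin m → ZMod 3, 2 ^ n = 2 ^ n * 3 ^ (m * l) := by
    simp only [Finset.sum_const, Finset.card_univ, Fintype.card_pi, Finset.prod_const,
      Fintype.card_fin, ZMod.card, smul_eq_mul, ← pow_mul]
    ring
  omega

/-- Number of errors of an approximation. -/
noncomputable def err {n : ℕ} (p : (Fin n → Bool) → ZMod 3) (f : (Fin n → Bool) → Bool) : Finset (Fin n → Bool) :=
  Finset.univ.filter fun x => p x ≠ bv (f x)

theorem approx {n Z l d : ℕ} (hl : 1 ≤ l) {f : (Fin n → Bool) → Bool} (hf : AC03 n Z d f) :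
    ∃ p ∈ LowDeg n ((2 * l) ^ d), (err p f).card * 3 ^ l ≤ (Z + 1) ^ d * 2 ^ n := by
  classical
  induction hf with
  | input i =>
    refine ⟨_, by simpa using LowDeg.var i, ?_⟩
    simp [err]
  | const b =>
    refine ⟨_, LowDeg.const n _ (bv b), ?_⟩
    simp [err]
  | @lift d f h ih =>
    obtain ⟨p, hp, he⟩ := ih
    refine ⟨p, LowDeg.mono' (Nat.pow_le_pow_right (by omega) (Nat.le_succ d)) hp, he.trans ?_⟩
    exact Nat.mul_le_mul_right _ (Nat.pow_le_pow_right (by omega) (Nat.le_succ d))
  | @not d f h ih =>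
    obtain ⟨p, hp, he⟩ := ih
    refine ⟨1 - p, Submodule.sub_mem _ (LowDeg.one _ _) hp, le_trans ?_ he⟩
    apply Nat.mul_le_mul_right
    apply Finset.card_le_card
    intro x hx
    simp only [err, Finset.mem_filter, Finset.mem_univ, true_and, Pi.sub_apply,
      Pi.one_apply] at hx ⊢
    intro hpx
    apply hx
    rw [hpx]
    cases f x <;> simp [bv]
  | @and d m hm f h ih =>
    choose p hp he using ih
    obtain ⟨r, hr⟩ := exists_good_r (n := n) l (fun j => 1 - p j)
    refine ⟨fun x => ∏ k : Fin l, (1 - (∑ j, r k j * (1 - p j x)) * (∑ j, r k j * (1 - p j x))),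
      ?_, ?_⟩
    · have h1 : ∀ k ∈ (Finset.univ : Finset (Fin l)),
          (fun x => (1 - (∑ j, r k j * (1 - p j x)) * (∑ j, r k j * (1 - p j x))))
            ∈ LowDeg n (2 * (2 * l) ^ d) := by
        intro k _
        have h2 : (fun x => ∑ j, r k j * (1 - p j x)) ∈ LowDeg n ((2 * l) ^ d) := by
          apply LowDeg.sum
          intro j _
          exact Submodule.smul_mem _ (r k j) (Submodule.sub_mem _ (LowDeg.one _ _) (hp j))
        have h3 := LowDeg.mul h2 h2
        rw [← two_mul] at h3
        exact Submodule.sub_mem _ (LowDeg.one _ _) h3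
      have h4 := LowDeg.prod Finset.univ h1
      rw [Finset.card_univ, Fintype.card_fin] at h4
      have h5 : l * (2 * (2 * l) ^ d) = (2 * l) ^ (d + 1) := by ring
      rw [h5] at h4
      exact h4
    · have hsub : err (fun x => ∏ k : Fin l,
          (1 - (∑ j, r k j * (1 - p j x)) * (∑ j, r k j * (1 - p j x))))
          (fun x => decide (∀ j, f j x = true)) ⊆
          (Finset.univ.filter fun x : Fin n → Bool =>
            (∃ j, (1 - p j) x ≠ 0) ∧ ∀ k, ∑ j, r k j * (1 - p j) x = 0) ∪
          Finset.univ.biUnion fun j => err (p j) (f j) := by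
        intro x hx
        rw [Finset.mem_union, Finset.mem_biUnion]
        by_contra hcon
        rw [not_or] at hcon
        obtain ⟨h1, h2⟩ := hcon
        simp only [Finset.mem_filter, Finset.mem_univ, true_and, err, Pi.sub_apply,
          Pi.one_apply] at h1 h2 hx
        push Not at h1 h2
        apply hx
        by_cases hall : ∀ j, f j x = true
        · have h0 : ∀ j, 1 - p j x = 0 := by
            intro j
            rw [h2 j, hall j]
            simp [bv]
          simp [h0, hall, bv]
        · push Not at hall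
          obtain ⟨j, hj⟩ := hall
          have hne : 1 - p j x ≠ 0 := by
            rw [h2 j]
            simp [bv, hj]
          obtain ⟨k, hk⟩ := h1 ⟨j, hne⟩
          have hfalse : decide (∀ j, f j x = true) = false := by
            rw [decide_eq_false_iff_not]
            intro h
            exact hj (h j)
          rw [hfalse]
          simp only [bv, Bool.false_eq_true, if_false]
          apply Finset.prod_eq_zero (Finset.mem_univ k)
          rw [sq_F3, if_neg hk, sub_self]
      have hcard := (Finset.card_le_card hsub).trans (Finset.card_union_le _ _)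
      have hb : (Finset.univ.biUnion fun j => err (p j) (f j)).card * 3 ^ l
          ≤ Z * ((Z + 1) ^ d * 2 ^ n) := by
        calc _ ≤ (∑ j : Fin m, (err (p j) (f j)).card) * 3 ^ l :=
              Nat.mul_le_mul_right _ Finset.card_biUnion_le
          _ = ∑ j : Fin m, (err (p j) (f j)).card * 3 ^ l := Finset.sum_mul _ _ _
          _ ≤ ∑ j : Fin m, (Z + 1) ^ d * 2 ^ n := Finset.sum_le_sum fun j _ => he j
          _ = m * ((Z + 1) ^ d * 2 ^ n) := by simp
          _ ≤ Z * ((Z + 1) ^ d * 2 ^ n) := Nat.mul_le_mul_right _ hm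
      have h1 : 1 ≤ (Z + 1) ^ d := Nat.one_le_pow _ _ (by omega)
      calc _ ≤ _ := Nat.mul_le_mul_right _ hcard
        _ = _ := add_mul _ _ _
        _ ≤ 2 ^ n + Z * ((Z + 1) ^ d * 2 ^ n) := add_le_add hr hb
        _ ≤ (Z + 1) ^ d * 2 ^ n + Z * ((Z + 1) ^ d * 2 ^ n) := by
            apply Nat.add_le_add_right
            calc 2 ^ n = 1 * 2 ^ n := (one_mul _).symm
              _ ≤ _ := Nat.mul_le_mul_right _ h1
        _ = (Z + 1) ^ (d + 1) * 2 ^ n := by ring
  | @mod3 d m hm c c0 f h ih =>
    choose p hp he using ih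
    refine ⟨fun x => 1 - ((∑ j, c j * p j x) - c0) * ((∑ j, c j * p j x) - c0), ?_, ?_⟩
    · have h2 : (fun x => (∑ j, c j * p j x) - c0) ∈ LowDeg n ((2 * l) ^ d) := by
        refine Submodule.sub_mem _ ?_ (LowDeg.const _ _ c0)
        apply LowDeg.sum
        intro j _
        exact Submodule.smul_mem _ (c j) (hp j)
      have h3 := LowDeg.mul h2 h2
      refine LowDeg.mono' ?_ (Submodule.sub_mem _ (LowDeg.one _ _) h3)
      have : (2 * l) ^ (d + 1) = 2 * l * (2 * l) ^ d := by ring
      rw [this, ← two_mul]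
      exact Nat.mul_le_mul_right _ (by omega)
    · have hsub : err (fun x => 1 - ((∑ j, c j * p j x) - c0) * ((∑ j, c j * p j x) - c0))
          (fun x => decide ((∑ j, if f j x = true then c j else 0) = c0)) ⊆
          Finset.univ.biUnion fun j => err (p j) (f j) := by
        intro x hx
        rw [Finset.mem_biUnion]
        by_contra h2
        simp only [Finset.mem_filter, Finset.mem_univ, true_and, err] at h2 hx
        push Not at h2
        apply hx
        have h3 : ∑ j, c j * p j x = ∑ j, if f j x = true then c j else 0 := by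
          apply Finset.sum_congr rfl
          intro j _
          rw [h2 j]
          cases f j x <;> simp [bv]
        rw [h3, sq_F3]
        by_cases h4 : (∑ j, if f j x = true then c j else 0) = c0
        · rw [if_pos (sub_eq_zero.2 h4)]
          simp [h4, bv]
        · rw [if_neg (sub_ne_zero.2 h4)]
          simp [h4, bv]
      have hb : (Finset.univ.biUnion fun j => err (p j) (f j)).card * 3 ^ l
          ≤ Z * ((Z + 1) ^ d * 2 ^ n) := by
        calc _ ≤ (∑ j : Fin m, (err (p j) (f j)).card) * 3 ^ l :=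
              Nat.mul_le_mul_right _ Finset.card_biUnion_le
          _ = ∑ j : Fin m, (err (p j) (f j)).card * 3 ^ l := Finset.sum_mul _ _ _
          _ ≤ ∑ j : Fin m, (Z + 1) ^ d * 2 ^ n := Finset.sum_le_sum fun j _ => he j
          _ = m * ((Z + 1) ^ d * 2 ^ n) := by simp
          _ ≤ Z * ((Z + 1) ^ d * 2 ^ n) := Nat.mul_le_mul_right _ hm
      calc _ ≤ _ := Nat.mul_le_mul_right _ (Finset.card_le_card hsub)
        _ ≤ _ := hb
        _ ≤ (Z + 1) * ((Z + 1) ^ d * 2 ^ n) := Nat.mul_le_mul_right _ (Nat.le_succ _)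
        _ = (Z + 1) ^ (d + 1) * 2 ^ n := by ring

/-! ### Smolensky's argument -/

/-- The sign `(-1) ^ b` in `ZMod 3`. -/
def sg (b : Bool) : ZMod 3 := if b = true then -1 else 1

theorem sg_eq (b : Bool) : sg b = 1 + bv b := by
  cases b <;> decide

theorem sg_mul_self (b : Bool) : sg b * sg b = 1 := by
  cases b <;> decide

/-- The character of a set of variables. -/
def chr {n : ℕ} (S : Finset (Fin n)) (x : Fin n → Bool) : ZMod 3 := ∏ i ∈ S, sg (x i)

theorem chr_mem {n : ℕ} (S : Finset (Fin n)) : chr S ∈ LowDeg n S.card := by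
  have h := LowDeg.prod (n := n) (a := 1) S (p := fun i x => sg (x i)) (fun i _ => by
    have h1 := Submodule.add_mem _ (LowDeg.one n 1) (LowDeg.var i)
    have h2 : (fun x : Fin n → Bool => sg (x i)) = 1 + fun x => bv (x i) := by
      funext x
      simp [sg_eq]
    rw [h2]
    exact h1)
  rw [mul_one] at h
  exact h

theorem chr_univ {n : ℕ} (x : Fin n → Bool) : chr Finset.univ x = 1 + bv (parityFn n x) := by
  classical
  have h1 : chr Finset.univ x = (-1) ^ (Finset.univ.filter fun i => x i = true).card := by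
    unfold chr sg
    rw [Finset.prod_ite, Finset.prod_const, Finset.prod_const_one, mul_one]
  rw [h1]
  unfold parityFn bv
  by_cases h : Odd (Finset.univ.filter fun i => x i = true).card
  · rw [h.neg_one_pow]
    simp only [h, decide_true, if_true]
    decide
  · rw [Nat.not_odd_iff_even] at h
    rw [h.neg_one_pow]
    have : ¬ Odd (Finset.univ.filter fun i => x i = true).card := by
      rw [Nat.not_odd_iff_even]; exact h
    simp [this]

theorem chr_compl {n : ℕ} (S : Finset (Fin n)) (x : Fin n → Bool) :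
    chr S x = chr Finset.univ x * chr Sᶜ x := by
  unfold chr
  rw [← Finset.prod_mul_prod_compl S (fun i => sg (x i)), mul_assoc, ← Finset.prod_mul_distrib]
  simp [sg_mul_self]

theorem span_chr (n : ℕ) : Submodule.span (ZMod 3) (Set.range (chr : Finset (Fin n) → _)) = ⊤ := by
  classical
  rw [eq_top_iff]
  intro g _
  have hδ : ∀ a : Fin n → Bool, (Pi.single a 1 : (Fin n → Bool) → ZMod 3) ∈
      Submodule.span (ZMod 3) (Set.range (chr : Finset (Fin n) → _)) := by
    intro a
    have h1 : (Pi.single a 1 : (Fin n → Bool) → ZMod 3)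
        = ((2 : ZMod 3) ^ n)⁻¹ • ∑ S : Finset (Fin n), chr S a • chr S := by
      funext x
      have h2 : ∑ S : Finset (Fin n), chr S a * chr S x = ∏ i, (1 + sg (a i) * sg (x i)) := by
        rw [Finset.prod_one_add]
        simp only [Finset.powerset_univ]
        apply Finset.sum_congr rfl
        intro S _
        unfold chr
        rw [Finset.prod_mul_distrib]
      simp only [Pi.smul_apply, Finset.sum_apply, smul_eq_mul, h2]
      have h20 : (2 : ZMod 3) ≠ 0 := by decide
      by_cases hax : x = a
      · subst hax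
        simp only [sg_mul_self, Pi.single_eq_same, Finset.prod_const, Finset.card_univ,
          Fintype.card_fin]
        have : (1 + 1 : ZMod 3) = 2 := by decide
        rw [this, inv_mul_cancel₀ (pow_ne_zero _ h20)]
      · rw [Pi.single_eq_of_ne hax]
        obtain ⟨i, hi⟩ := Function.ne_iff.1 hax
        rw [Finset.prod_eq_zero (Finset.mem_univ i), mul_zero]
        revert hi
        cases a i <;> cases x i <;> decide
    rw [h1]
    refine Submodule.smul_mem _ _ (Submodule.sum_mem _ fun S _ => Submodule.smul_mem _ _ ?_)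
    exact Submodule.subset_span ⟨S, rfl⟩
  have hg : g = ∑ a, g a • (Pi.single a 1 : (Fin n → Bool) → ZMod 3) := by
    funext x
    simp [Finset.sum_apply, Pi.single_apply]
  rw [hg]
  exact Submodule.sum_mem _ fun a _ => Submodule.smul_mem _ _ (hδ a)

theorem agree_card {n D : ℕ} {p : (Fin n → Bool) → ZMod 3} (hp : p ∈ LowDeg n D) :
    (Finset.univ.filter fun x => p x = bv (parityFn n x)).card ≤
      (Finset.univ.filter fun S : Finset (Fin n) => S.card ≤ n / 2 + D).card := by
  classical
  set G := Finset.univ.filter fun x => p x = bv (parityFn n x) with hG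
  set L := LowDeg n (n / 2 + D) with hL
  -- the submodule of functions agreeing on `G` with low degree
  set R : ((Fin n → Bool) → ZMod 3) →ₗ[ZMod 3] (G → ZMod 3) :=
    LinearMap.funLeft (ZMod 3) (ZMod 3) (fun x : G => x.1) with hR
  have hsurjR : Function.Surjective R :=
    LinearMap.funLeft_surjective_of_injective _ _ _ Subtype.val_injective
  have hmap : L.map R = ⊤ := by
    rw [eq_top_iff]
    have h1 : (⊤ : Submodule (ZMod 3) (G → ZMod 3)) = (⊤ : Submodule (ZMod 3) ((Fin n → Bool) → ZMod 3)).map R := by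
      rw [Submodule.map_top, LinearMap.range_eq_top.2 hsurjR]
    rw [h1, ← span_chr n, Submodule.map_span, Submodule.span_le]
    rintro _ ⟨_, ⟨S, rfl⟩, rfl⟩
    by_cases hS : S.card ≤ n / 2
    · exact ⟨chr S, LowDeg.mono' (by omega) (chr_mem S), rfl⟩
    · refine ⟨(1 + p) * chr Sᶜ, ?_, ?_⟩
      · have h2 := LowDeg.mul (Submodule.add_mem _ (LowDeg.one n D) hp) (chr_mem Sᶜ)
        refine LowDeg.mono' ?_ h2
        rw [Finset.card_compl, Fintype.card_fin]
        omega
      · funext x
        have hx := x.2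
        simp only [hG, Finset.mem_filter, Finset.mem_univ, true_and] at hx
        simp only [hR, LinearMap.funLeft_apply, Pi.mul_apply, Pi.add_apply, Pi.one_apply]
        rw [hx, chr_compl S, chr_univ]
  have h1 : Module.finrank (ZMod 3) (G → ZMod 3) ≤ Module.finrank (ZMod 3) L := by
    rw [← finrank_top (ZMod 3) (G → ZMod 3), ← hmap]
    exact Submodule.finrank_map_le R L
  rw [Module.finrank_pi, Fintype.card_coe] at h1
  refine h1.trans ?_
  have h2 : L = Submodule.span (ZMod 3)
      (((Finset.univ.filter fun S : Finset (Fin n) => S.card ≤ n / 2 + D).image mono :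
        Finset ((Fin n → Bool) → ZMod 3)) : Set ((Fin n → Bool) → ZMod 3)) := by
    rw [hL, LowDeg]
    congr 1
    ext g
    simp
  rw [h2]
  exact (finrank_span_finset_le_card _).trans Finset.card_image_le

/-! ### Binomial estimates -/

theorem centralBinom_sq (k : ℕ) : Nat.centralBinom k ^ 2 * (2 * k + 1) ≤ 16 ^ k := by
  induction k with
  | zero => simp
  | succ k ih =>
    have h := Nat.succ_mul_centralBinom_succ k
    have h1 : ((k + 1) * Nat.centralBinom (k + 1)) ^ 2 * (2 * (k + 1) + 1)
        ≤ (k + 1) ^ 2 * 16 ^ (k + 1) := by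
      rw [h]
      calc (2 * (2 * k + 1) * Nat.centralBinom k) ^ 2 * (2 * (k + 1) + 1)
          = (Nat.centralBinom k ^ 2 * (2 * k + 1)) * (4 * ((2 * k + 1) * (2 * k + 3))) := by ring
        _ ≤ 16 ^ k * (4 * ((2 * k + 2) * (2 * k + 2))) := by
            apply Nat.mul_le_mul ih
            apply Nat.mul_le_mul_left
            nlinarith
        _ = (k + 1) ^ 2 * 16 ^ (k + 1) := by ring
    have h2 : (k + 1) ^ 2 * (Nat.centralBinom (k + 1) ^ 2 * (2 * (k + 1) + 1))
        ≤ (k + 1) ^ 2 * 16 ^ (k + 1) := by
      calc _ = ((k + 1) * Nat.centralBinom (k + 1)) ^ 2 * (2 * (k + 1) + 1) := by ring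
        _ ≤ _ := h1
    exact Nat.le_of_mul_le_mul_left h2 (by positivity)

theorem choose_half_sq (n : ℕ) : (n.choose (n / 2)) ^ 2 * n ≤ 4 ^ n := by
  rcases Nat.even_or_odd' n with ⟨k, rfl | rfl⟩
  · have h := centralBinom_sq k
    rw [Nat.centralBinom] at h
    have : 2 * k / 2 = k := by omega
    rw [this]
    calc _ ≤ ((2 * k).choose k) ^ 2 * (2 * k + 1) := Nat.mul_le_mul_left _ (by omega)
      _ ≤ 16 ^ k := h
      _ = 4 ^ (2 * k) := by rw [pow_mul]; norm_num
  · have h := centralBinom_sq (k + 1)
    have h1 : (2 * k + 1) / 2 = k := by omega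
    rw [h1]
    have h2 : Nat.centralBinom (k + 1) = 2 * (2 * k + 1).choose k := by
      rw [Nat.centralBinom, show 2 * (k + 1) = 2 * k + 1 + 1 by ring, Nat.choose_succ_succ]
      have : (2 * k + 1).choose (k + 1) = (2 * k + 1).choose k := by
        apply Nat.choose_symm_of_eq_add
        ring
      rw [this]
      ring
    rw [h2] at h
    have h3 : 4 * (((2 * k + 1).choose k) ^ 2 * (2 * k + 1)) ≤ 4 * 4 ^ (2 * k + 1) := by
      calc _ ≤ 4 * (((2 * k + 1).choose k) ^ 2 * (2 * (k + 1) + 1)) := by
            apply Nat.mul_le_mul_left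
            apply Nat.mul_le_mul_left
            omega
        _ = (2 * (2 * k + 1).choose k) ^ 2 * (2 * (k + 1) + 1) := by ring
        _ ≤ 16 ^ (k + 1) := h
        _ = 4 * 4 ^ (2 * k + 1) := by
            rw [show (16 : ℕ) = 4 ^ 2 by norm_num, ← pow_mul]
            ring
    omega

theorem card_small_le (n D : ℕ) :
    2 * (Finset.univ.filter fun S : Finset (Fin n) => S.card ≤ n / 2 + D).card ≤
      2 ^ n + 2 * ((D + 1) * n.choose (n / 2)) := by
  classical
  set A := Finset.univ.filter fun S : Finset (Fin n) => S.card < n / 2 with hA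
  set B := (Finset.range (D + 1)).biUnion fun i => Finset.powersetCard (n / 2 + i)
    (Finset.univ : Finset (Fin n)) with hB
  have h1 : (Finset.univ.filter fun S : Finset (Fin n) => S.card ≤ n / 2 + D) ⊆ A ∪ B := by
    intro S hS
    simp only [Finset.mem_filter, Finset.mem_univ, true_and] at hS
    rw [Finset.mem_union]
    by_cases h : S.card < n / 2
    · left
      simp [hA, h]
    · right
      simp only [hB, Finset.mem_biUnion, Finset.mem_range, Finset.mem_powersetCard,
        Finset.subset_univ, true_and]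
      exact ⟨S.card - n / 2, by omega, by omega⟩
  have h2 : 2 * A.card ≤ 2 ^ n := by
    have h3 : Disjoint A (A.image compl) := by
      rw [Finset.disjoint_left]
      intro S hS hS'
      simp only [hA, Finset.mem_filter, Finset.mem_univ, true_and, Finset.mem_image] at hS hS'
      obtain ⟨T, hT, rfl⟩ := hS'
      rw [Finset.card_compl, Fintype.card_fin] at hS
      omega
    have h4 := Finset.card_union_of_disjoint h3
    rw [Finset.card_image_of_injective _ compl_injective] at h4
    have h5 := Finset.card_le_univ (A ∪ A.image compl)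
    rw [Fintype.card_finset, Fintype.card_fin] at h5
    omega
  have h3 : B.card ≤ (D + 1) * n.choose (n / 2) := by
    calc B.card ≤ ∑ i ∈ Finset.range (D + 1), (Finset.powersetCard (n / 2 + i)
          (Finset.univ : Finset (Fin n))).card := Finset.card_biUnion_le
      _ ≤ ∑ i ∈ Finset.range (D + 1), n.choose (n / 2) := by
          apply Finset.sum_le_sum
          intro i _
          rw [Finset.card_powersetCard, Finset.card_univ, Fintype.card_fin]
          exact Nat.choose_le_middle _ _
      _ = (D + 1) * n.choose (n / 2) := by simp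
  have h4 := (Finset.card_le_card h1).trans (Finset.card_union_le _ _)
  omega

/-- **Razborov-Smolensky for parity.** -/
theorem parity_not_AC03 (n Z d l : ℕ) (hl : 10 * (Z + 1) ^ d < 3 ^ l)
    (hn : 100 * ((2 * l) ^ d + 1) ^ 2 ≤ n) : ¬ AC03 n Z d (parityFn n) := by
  classical
  intro hAC
  have hZ : 1 ≤ (Z + 1) ^ d := Nat.one_le_pow _ _ (by omega)
  have hl1 : 1 ≤ l := by
    rcases Nat.eq_zero_or_pos l with h | h
    · subst h
      rw [pow_zero] at hl
      omega
    · exact h
  obtain ⟨p, hp, he⟩ := approx hl1 hAC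
  have hG := agree_card hp
  have hsmall := card_small_le n ((2 * l) ^ d)
  set D := (2 * l) ^ d with hD
  -- binomial estimate
  have hb : 10 * ((D + 1) * n.choose (n / 2)) ≤ 2 ^ n := by
    have h1 := choose_half_sq n
    have h2 : (10 * ((D + 1) * n.choose (n / 2))) ^ 2 ≤ (2 ^ n) ^ 2 := by
      calc _ = (n.choose (n / 2)) ^ 2 * (100 * (D + 1) ^ 2) := by ring
        _ ≤ (n.choose (n / 2)) ^ 2 * n := Nat.mul_le_mul_left _ hn
        _ ≤ 4 ^ n := h1
        _ = (2 ^ n) ^ 2 := by rw [← pow_mul, mul_comm, pow_mul]; norm_num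
    exact (Nat.pow_le_pow_iff_left (by norm_num)).1 h2
  -- few errors
  have hE : 10 * (err p (parityFn n)).card ≤ 2 ^ n := by
    have h1 : 10 * (err p (parityFn n)).card * 3 ^ l ≤ 2 ^ n * 3 ^ l := by
      calc _ = 10 * ((err p (parityFn n)).card * 3 ^ l) := by ring
        _ ≤ 10 * ((Z + 1) ^ d * 2 ^ n) := Nat.mul_le_mul_left _ he
        _ = 10 * (Z + 1) ^ d * 2 ^ n := by ring
        _ ≤ 3 ^ l * 2 ^ n := Nat.mul_le_mul_right _ hl.le
        _ = 2 ^ n * 3 ^ l := mul_comm _ _
    exact Nat.le_of_mul_le_mul_right h1 (by positivity)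
  -- total
  have htot : (Finset.univ.filter fun x => p x = bv (parityFn n x)).card
      + (err p (parityFn n)).card = 2 ^ n := by
    unfold err
    rw [Finset.card_filter_add_card_filter_not]
    simp
  have h2n : 0 < 2 ^ n := by positivity
  omega

end Pool.Agent.W_MP_458e77_lc
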