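import Pool.Agent.W_MP_458e77_lc.Numeric
import Pool.Agent.W_MP_458e77_lc.Oracle
import Pool.Agent.W_MP_458e77_lc.Smolensky

/-!
Parity is not reducible to the word problem.
-/

namespace Pool.Agent.W_MP_458e77_lc

open Function

/-- the group -/
noncomputable abbrev GG : Subgroup (Equiv.Perm (Conf Jn)) := lev cn 0

theorem GG_fg : Group.FG GG := lev_fg

theorem GG_not_solvable : ¬ Group.IsSolvable GG :=
  not_solvable cn_inj (fun k => ⟨fun _ => 2, cn_ne_two k⟩)

theorem parity_not_reducible {A : Type} [Finite A] (g : A → GG) (d c : ℕ) :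
    ∃ n, ¬ OAC0 (WP g) n (n ^ c + c) d (parityFn n) := by
  classical
  have hex : ∀ a : A, ∃ w, ∀ u, run cn 0 w u = (g a : Equiv.Perm (Conf Jn)) u :=
    fun a => exists_word (g a).2
  choose rep hrep using hex
  obtain ⟨C, hC⟩ : ∃ C, ∀ a, (rep a).length ≤ C := by
    obtain ⟨C, hC⟩ := (Set.finite_range fun a => (rep a).length).bddAbove
    exact ⟨C, fun a => hC ⟨a, rfl⟩⟩
  obtain ⟨i, l, n, Z, M, W, hM, hMN, hW, hZ, h1, h2⟩ := numerics d c (C + 1)
  refine ⟨n, fun h => ?_⟩
  have h3 := OAC0.toAC03 (n := n) (Z := Z) (M := M) (W := W) (i := i) cn_inj g rep hrep hC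
    (by
      rw [hW]
      have h5 := Nn_ge i
      have : 1 * 1 ≤ Nn i * Nn i := Nat.mul_le_mul (by omega) (by omega)
      omega)
    (fun γ γ' hne => lt_of_lt_of_le hMN (cn_dist i γ γ' hne))
    (fun k' hk' => by
      rw [card_opt, hW]
      have := Nn_mono hk'
      have := Nat.mul_le_mul this this
      omega)
    (by rw [hM]; exact Nat.mul_le_mul_right _ (by omega))
    (by
      rw [hZ]
      have hS : n ^ c + c ≤ M := by rw [hM]; exact Nat.le_mul_of_pos_left _ (by omega)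
      have hW1 : 1 ≤ W ^ (i + 1) := Nat.one_le_pow _ _ (by rw [hW]; omega)
      calc n ^ c + c ≤ 2 * (M + 2) * 1 := by omega
        _ ≤ _ := Nat.mul_le_mul_left _ hW1)
    (by rw [hZ]) h
  exact parity_not_AC03 n Z _ l h1 h2 h3

end Pool.Agent.W_MP_458e77_lc
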