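import Pool.Agent.W_MP_458e77_lc.Data

/-!
The numbers.
-/

namespace Pool.Agent.W_MP_458e77_lc

theorem sq_le_two_pow {r : ℕ} (hr : 4 ≤ r) : r * r ≤ 2 ^ r := by
  induction r, hr using Nat.le_induction with
  | base => norm_num
  | succ m hm ih =>
    rw [pow_succ]
    nlinarith

theorem quad_lt {L : ℕ} (hL : 64 ≤ L) : 4 * (4 * L * L + 11 * L + 1) < 2 ^ L := by
  induction L, hL using Nat.le_induction with
  | base => norm_num
  | succ m hm ih =>
    rw [pow_succ]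
    nlinarith

theorem numerics (d c C : ℕ) : ∃ i l n Z M W : ℕ,
    M = C * (n ^ c + c) ∧ M < Nn i ∧ W = Nn i * Nn i + 1 ∧ Z = 2 * (M + 2) * W ^ (i + 1) ∧
    10 * (Z + 1) ^ (d * (4 * i + 5)) < 3 ^ l ∧
    100 * ((2 * l) ^ (d * (4 * i + 5)) + 1) ^ 2 ≤ n := by
  obtain ⟨r, hr⟩ : ∃ r, r = (d + 1) * (c + 1) + C + 4 := ⟨_, rfl⟩
  obtain ⟨r', hr'⟩ : ∃ r', r = r' + 1 := ⟨r - 1, by omega⟩
  obtain ⟨L, hLdef⟩ : ∃ L, L = Nn r' / 4 := ⟨_, rfl⟩
  have hNr : Nn r = 2 ^ L := by rw [hr', hLdef]; rfl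
  have hdc : (d + 1) * (c + 1) = d * c + d + c + 1 := by ring
  have hr4 : 4 ≤ r := by omega
  -- L is large
  have hL1 : 32 * (r * r) ≤ L := by
    have h1 := Nn_growth r'
    have h2 : 2 ^ (r' + 8) = 4 * (32 * 2 ^ r) := by
      rw [hr', pow_add, pow_succ]; ring
    have h3 := sq_le_two_pow hr4
    omega
  have hrr : 4 * r ≤ r * r := Nat.mul_le_mul_right _ hr4
  have hL64 : 64 ≤ L := by omega
  obtain ⟨i, hi⟩ : ∃ i, i = r + 1 := ⟨_, rfl⟩
  obtain ⟨H, hH⟩ : ∃ H, H = d * (4 * i + 5) := ⟨_, rfl⟩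
  have hHc : H * (c + 1) ≤ L := by
    have h1 : d * (c + 1) ≤ r := by rw [hr]; nlinarith
    calc H * (c + 1) = (d * (c + 1)) * (4 * i + 5) := by rw [hH]; ring
      _ ≤ r * (4 * i + 5) := Nat.mul_le_mul_right _ h1
      _ ≤ r * (7 * r) := Nat.mul_le_mul_left _ (by omega)
      _ = 7 * (r * r) := by ring
      _ ≤ L := by omega
  have hHL : H ≤ L := le_trans (Nat.le_mul_of_pos_right _ (by omega)) hHc
  have hcL : c ≤ L := by omega
  have hCL : C ≤ L := by omega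
  have hiL : i + 3 ≤ L := by omega
  have hNi : Nn i = 2 ^ (2 ^ L / 4) := by
    rw [hi, ← hNr]
    rfl
  obtain ⟨N, hN⟩ : ∃ N, N = 2 ^ L := ⟨_, rfl⟩
  have hLlt : L < 2 ^ L := Nat.lt_two_pow_self
  have hquad := quad_lt hL64
  -- l
  obtain ⟨l, hl⟩ : ∃ l, l = N * (i + 3) * H + 4 := ⟨_, rfl⟩
  have h2l : 2 * l ≤ 2 ^ (2 * L) := by
    have h1 : (i + 3) * H ≤ L * L := Nat.mul_le_mul hiL hHL
    calc 2 * l = (2 * ((i + 3) * H)) * N + 8 := by rw [hl]; ring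
      _ ≤ (2 * (L * L)) * N + 1 * N := by
          apply Nat.add_le_add
          · exact Nat.mul_le_mul_right _ (Nat.mul_le_mul_left _ h1)
          · rw [hN]; omega
      _ = (2 * (L * L) + 1) * N := by ring
      _ ≤ N * N := by
          apply Nat.mul_le_mul_right
          rw [hN]
          have : 4 * L * L = 4 * (L * L) := by ring
          omega
      _ = 2 ^ (2 * L) := by rw [hN, ← pow_add]; congr 1; ring
  obtain ⟨n, hn⟩ : ∃ n, n = 100 * ((2 * l) ^ H + 1) ^ 2 := ⟨_, rfl⟩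
  have hn2 : n ≤ 2 ^ (4 * L * H + 9) := by
    have h1 : (2 * l) ^ H + 1 ≤ 2 ^ (2 * L * H + 1) := by
      calc (2 * l) ^ H + 1 ≤ (2 ^ (2 * L)) ^ H + (2 ^ (2 * L)) ^ H := by
            apply Nat.add_le_add
            · exact Nat.pow_le_pow_left h2l _
            · exact Nat.one_le_pow _ _ (by positivity)
        _ = 2 ^ (2 * L * H + 1) := by rw [← pow_mul, pow_succ]; ring
    calc n = 100 * ((2 * l) ^ H + 1) ^ 2 := hn
      _ ≤ 128 * (2 ^ (2 * L * H + 1)) ^ 2 := by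
          apply Nat.mul_le_mul (by norm_num)
          exact Nat.pow_le_pow_left h1 2
      _ = 2 ^ (4 * L * H + 9) := by
          rw [← pow_mul]
          have : (128 : ℕ) = 2 ^ 7 := by norm_num
          rw [this, ← pow_add]
          congr 1
          ring
  obtain ⟨M, hM⟩ : ∃ M, M = C * (n ^ c + c) := ⟨_, rfl⟩
  have hM2 : M < Nn i := by
    rw [hNi]
    have h1 : n ^ c ≤ 2 ^ ((4 * L * H + 9) * c) := by
      calc n ^ c ≤ (2 ^ (4 * L * H + 9)) ^ c := Nat.pow_le_pow_left hn2 c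
        _ = _ := by rw [← pow_mul]
    have h2 : n ^ c + c ≤ 2 ^ ((4 * L * H + 9) * c + L + 1) := by
      have e1 : 2 ^ ((4 * L * H + 9) * c) ≤ 2 ^ ((4 * L * H + 9) * c + L) :=
        Nat.pow_le_pow_right (by norm_num) (by omega)
      have e2 : 2 ^ L ≤ 2 ^ ((4 * L * H + 9) * c + L) :=
        Nat.pow_le_pow_right (by norm_num) (by omega)
      rw [pow_succ]
      omega
    have h3 : M ≤ 2 ^ ((4 * L * H + 9) * c + 2 * L + 1) := by
      calc M = C * (n ^ c + c) := hM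
        _ ≤ 2 ^ L * 2 ^ ((4 * L * H + 9) * c + L + 1) := Nat.mul_le_mul (by omega) h2
        _ = _ := by rw [← pow_add]; congr 1; ring
    refine lt_of_le_of_lt h3 (Nat.pow_lt_pow_right (by norm_num) ?_)
    have h4 : H * c ≤ L := le_trans (Nat.mul_le_mul_left _ (by omega)) hHc
    have h5 : (4 * L * H + 9) * c = 4 * L * (H * c) + 9 * c := by ring
    have h6 : 4 * L * (H * c) ≤ 4 * L * L := Nat.mul_le_mul_left _ h4
    omega
  obtain ⟨W, hW⟩ : ∃ W, W = Nn i * Nn i + 1 := ⟨_, rfl⟩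
  have hW2 : W ≤ 2 ^ N := by
    have h1 := card_le r
    rw [card_opt, hNr, ← hi, ← hW, ← hN] at h1
    exact h1
  obtain ⟨Z, hZ⟩ : ∃ Z, Z = 2 * (M + 2) * W ^ (i + 1) := ⟨_, rfl⟩
  refine ⟨i, l, n, Z, M, W, hM, hM2, hW, hZ, ?_, ?_⟩
  · rw [← hH]
    have hN4 : 256 ≤ N := by
      have := Nn_ge r
      rw [hNr] at this
      omega
    have h1 : 2 * (M + 2) ≤ 2 ^ N := by
      have h2 : Nn i ≤ 2 ^ (N / 4) := by rw [hNi, hN]
      have h3 : 1 ≤ 2 ^ (N / 4) := Nat.one_le_two_pow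
      calc 2 * (M + 2) ≤ 2 ^ 2 * 2 ^ (N / 4) := by omega
        _ = 2 ^ (2 + N / 4) := by rw [← pow_add]
        _ ≤ 2 ^ N := Nat.pow_le_pow_right (by norm_num) (by omega)
    have h2 : Z + 1 ≤ 2 ^ (N * (i + 3)) := by
      have h3 : Z ≤ 2 ^ (N * (i + 2)) := by
        calc Z = 2 * (M + 2) * W ^ (i + 1) := hZ
          _ ≤ 2 ^ N * (2 ^ N) ^ (i + 1) :=
              Nat.mul_le_mul h1 (Nat.pow_le_pow_left hW2 _)
          _ = 2 ^ (N * (i + 2)) := by rw [← pow_mul, ← pow_add]; congr 1; ring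
      have h4 : 1 ≤ 2 ^ (N * (i + 2)) := Nat.one_le_two_pow
      calc Z + 1 ≤ 2 ^ (N * (i + 2)) * 2 := by omega
        _ = 2 ^ (N * (i + 2) + 1) := by rw [pow_succ]
        _ ≤ 2 ^ (N * (i + 3)) := Nat.pow_le_pow_right (by norm_num) (by
            have : N * (i + 3) = N * (i + 2) + N := by ring
            omega)
    calc 10 * (Z + 1) ^ H ≤ 16 * (2 ^ (N * (i + 3))) ^ H :=
          Nat.mul_le_mul (by norm_num) (Nat.pow_le_pow_left h2 _)
      _ = 2 ^ l := by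
          rw [← pow_mul, hl, pow_add]
          norm_num
          ring
      _ < 3 ^ l := Nat.pow_lt_pow_left (by norm_num) (by omega)
  · rw [← hH, hn]

end Pool.Agent.W_MP_458e77_lc
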