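import Mathlib

/-!
Constant depth circuits with oracle gates, and word problems.
-/

namespace Pool.Agent.W_MP_458e77_lc

/-- `OAC0 B n S d f`: the Boolean function `f` of `n` variables is computed by a (tree-like)
circuit of depth at most `d` whose gates are NOT gates, AND gates and OR gates of fan-in at most
`S`, and oracle gates of fan-in at most `S` for the language `B` over the alphabet `A`.  An oracle
gate is given by a list of pairs (letter, Boolean function); it evaluates to `true` exactly when
the word formed by the letters whose function is `true`, in the order of the list, belongs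
to `B`. -/
inductive OAC0 {A : Type} (B : Set (List A)) (n S : ℕ) : ℕ → ((Fin n → Bool) → Bool) → Prop
  | input (i : Fin n) : OAC0 B n S 0 (fun x => x i)
  | const (b : Bool) : OAC0 B n S 0 (fun _ => b)
  | lift {d : ℕ} {f : (Fin n → Bool) → Bool} (h : OAC0 B n S d f) : OAC0 B n S (d + 1) f
  | not {d : ℕ} {f : (Fin n → Bool) → Bool} (h : OAC0 B n S d f) :
      OAC0 B n S (d + 1) (fun x => !f x)
  | and {d : ℕ} {f : (Fin n → Bool) → Bool} (l : List ((Fin n → Bool) → Bool))
      (hl : l.length ≤ S) (h : ∀ g ∈ l, OAC0 B n S d g)
      (hf : ∀ x, f x = true ↔ ∀ g ∈ l, g x = true) : OAC0 B n S (d + 1) f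
  | or {d : ℕ} {f : (Fin n → Bool) → Bool} (l : List ((Fin n → Bool) → Bool))
      (hl : l.length ≤ S) (h : ∀ g ∈ l, OAC0 B n S d g)
      (hf : ∀ x, f x = true ↔ ∃ g ∈ l, g x = true) : OAC0 B n S (d + 1) f
  | oracle {d : ℕ} {f : (Fin n → Bool) → Bool} (l : List (A × ((Fin n → Bool) → Bool)))
      (hl : l.length ≤ S) (h : ∀ p ∈ l, OAC0 B n S d p.2)
      (hf : ∀ x, f x = true ↔ (l.filter fun p => p.2 x).map Prod.fst ∈ B) :
      OAC0 B n S (d + 1) f

open Classical in
/-- Non-uniform `AC⁰` Turing reducibility of a language `L` of binary words to a language `B`: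
constant depth, and polynomial fan-in, for all input lengths `n`. -/
def AC0Reducible {A : Type} (L : Set (List Bool)) (B : Set (List A)) : Prop :=
  ∃ d c : ℕ, ∀ n : ℕ, OAC0 B n (n ^ c + c) d (fun x => decide (List.ofFn x ∈ L))

/-- the word problem of a group with respect to a family of elements indexed by the alphabet -/
def WP {G A : Type} [Group G] (g : A → G) : Set (List A) := {w | (w.map g).prod = 1}

end Pool.Agent.W_MP_458e77_lc
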