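import Pool.Agent.W_MP_458e77_lc.Act
import Pool.Agent.W_MP_458e77_lc.Gates

/-!
Words whose letters are switched on and off by circuits.
-/

namespace Pool.Agent.W_MP_458e77_lc

open Function

variable {J : ℕ → Type} [∀ k, DecidableEq (J k)] {n Z : ℕ}
variable {c : ∀ k, Option (J (k + 1)) → J k → ZMod 3}

set_option linter.unusedSectionVars false

/-- a letter switched on and off by a Boolean function -/
abbrev Slot (n : ℕ) (X : Type) := Option X × ZMod 3 × ((Fin n → Bool) → Bool)

/-- the word at the input `x` -/
def ev {X : Type} (x : Fin n → Bool) (L : List (Slot n X)) : List (Option X × ZMod 3) :=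
  L.map fun s => (s.1, if s.2.2 x = true then s.2.1 else 0)

/-- the number of letters that are switched on -/
def cnt {X : Type} (x : Fin n → Bool) (L : List (Slot n X)) : ℕ := L.countP fun s => s.2.2 x

theorem ev_append {X : Type} (x : Fin n → Bool) (L L' : List (Slot n X)) :
    ev x (L ++ L') = ev x L ++ ev x L' := by
  unfold ev
  rw [List.map_append]

theorem ev_cons {X : Type} (x : Fin n → Bool) (s : Slot n X) (L : List (Slot n X)) :
    ev x (s :: L) = (s.1, if s.2.2 x = true then s.2.1 else 0) :: ev x L := rfl

theorem ev_nil {X : Type} (x : Fin n → Bool) : ev x ([] : List (Slot n X)) = [] := rfl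

theorem disp_append {k : ℕ} (w w' : List (Option (J k) × ZMod 3)) :
    disp (w ++ w') = disp w + disp w' := by
  induction w with
  | nil => 
    show disp w' = 0 + disp w'
    rw [zero_add]
  | cons a w ih =>
    obtain ⟨γ, ε⟩ := a
    rcases γ with _ | j
    · show disp (w ++ w') = disp w + disp w'
      exact ih
    · show Pi.single j ε + disp (w ++ w') = Pi.single j ε + disp w + disp w'
      rw [ih, add_assoc]

/-- contribution of a letter to the displacement at `j` -/
def coef {X : Type} [DecidableEq X] (j : X) (s : Slot n X) : ZMod 3 :=
  if s.1 = some j then s.2.1 else 0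

theorem disp_apply {k : ℕ} (x : Fin n → Bool) (P : List (Slot n (J k))) (j : J k) :
    disp (ev x P) j = (P.map (fun s => if s.2.2 x = true then coef j s else 0)).sum := by
  induction P with
  | nil => rfl
  | cons a P ih =>
    obtain ⟨γ, ε, f⟩ := a
    rw [ev_cons, List.map_cons, List.sum_cons, ← ih]
    rcases γ with _ | j'
    · show disp (ev x P) j = _
      simp [coef]
    · show ((Pi.single j' (if f x = true then ε else 0) : J k → ZMod 3) + disp (ev x P)) j = _
      rw [Pi.add_apply]
      congr 1
      by_cases hj : j' = j
      · subst hj
        simp [coef]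
      · rw [Pi.single_eq_of_ne (Ne.symm hj)]
        have : (some j' : Option (J k)) ≠ some j := fun h => hj (Option.some.inj h)
        simp [coef, this]

/-- the gate testing the difference of two displacements on the coordinates in `js` -/
def dgate {k : ℕ} (js : List (J k)) (P S : List (Slot n (J k))) (v : J k → ZMod 3)
    (x : Fin n → Bool) : Bool :=
  decide (∀ j ∈ js, disp (ev x P) j - disp (ev x S) j = v j)

theorem dgate_iff {k : ℕ} (js : List (J k)) (P S : List (Slot n (J k))) (v : J k → ZMod 3)
    (x : Fin n → Bool) : dgate js P S v x = true ↔
      ∀ j ∈ js, disp (ev x P) j - disp (ev x S) j = v j := by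
  unfold dgate
  rw [decide_eq_true_iff]

theorem dgate_AC03 {k δ : ℕ} (js : List (J k)) (P S : List (Slot n (J k))) (v : J k → ZMod 3)
    (hjs : js.length ≤ Z) (hPS : P.length + S.length ≤ Z) (hP : ∀ s ∈ P, AC03 n Z δ s.2.2)
    (hS : ∀ s ∈ S, AC03 n Z δ s.2.2) : AC03 n Z (δ + 2) (dgate js P S v) := by
  set g : J k → (Fin n → Bool) → Bool := fun j x =>
    decide (disp (ev x P) j - disp (ev x S) j = v j) with hg
  have h1 : ∀ j, AC03 n Z (δ + 1) (g j) := by
    intro j
    set l : List (ZMod 3 × ((Fin n → Bool) → Bool)) :=
      P.map (fun s => (coef j s, s.2.2)) ++ S.map (fun s => (-coef j s, s.2.2)) with hl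
    have h2 := AC03.mod3L (Z := Z) (d := δ) l (by
      rw [hl, List.length_append, List.length_map, List.length_map]; exact hPS) (v j) (by
      intro p hp
      rw [hl, List.mem_append, List.mem_map, List.mem_map] at hp
      rcases hp with ⟨s, hs, rfl⟩ | ⟨s, hs, rfl⟩
      · exact hP s hs
      · exact hS s hs)
    have e : (fun x => decide ((l.map (fun p => if p.2 x = true then p.1 else 0)).sum
      = v j)) = g j := by
      funext x
      rw [hg]
      congr 2
      rw [disp_apply, disp_apply, hl, List.map_append, List.sum_append, List.map_map,
        List.map_map, sub_eq_add_neg]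
      congr 1
      clear h2 hPS hS hl l hg g
      induction S with
      | nil => simp
      | cons a S ih =>
        rw [List.map_cons, List.sum_cons, ih, List.map_cons, List.sum_cons, neg_add]
        congr 1
        simp only [Function.comp]
        split_ifs
        · rfl
        · rw [neg_zero]
    rw [← e]
    exact h2
  have h3 := AC03.andL (Z := Z) (d := δ + 1) (js.map g) (by rw [List.length_map]; exact hjs) (by
    intro f hf
    obtain ⟨j, _, rfl⟩ := List.mem_map.1 hf
    exact h1 j)
  have e : (fun x => decide (∀ f ∈ js.map g, f x = true)) = dgate js P S v := by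
    funext x
    unfold dgate
    congr 1
    apply propext
    constructor
    · intro h j hj
      have := h (g j) (List.mem_map_of_mem hj)
      rw [hg] at this
      exact of_decide_eq_true this
    · intro h f hf
      obtain ⟨j, hj, rfl⟩ := List.mem_map.1 hf
      rw [hg]
      exact decide_eq_true (h j hj)
  rw [← e]
  exact h3

theorem cnt_cons {X : Type} (x : Fin n → Bool) (s : Slot n X) (L : List (Slot n X)) :
    cnt x (s :: L) = cnt x L + if s.2.2 x = true then 1 else 0 := by
  unfold cnt
  rw [List.countP_cons]

theorem cnt_append {X : Type} (x : Fin n → Bool) (L L' : List (Slot n X)) :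
    cnt x (L ++ L') = cnt x L + cnt x L' := by
  unfold cnt
  rw [List.countP_append]

/-- few letters change few coordinates -/
theorem norm_disp_le {k : ℕ} [Fintype (J k)] (x : Fin n → Bool) (P : List (Slot n (J k))) :
    hammingNorm (disp (ev x P)) ≤ cnt x P := by
  induction P with
  | nil => 
    show hammingNorm (0 : J k → ZMod 3) ≤ 0
    rw [hammingNorm_zero]
  | cons a P ih =>
    obtain ⟨γ, ε, f⟩ := a
    rw [ev_cons, cnt_cons]
    rcases γ with _ | j'
    · show hammingNorm (disp (ev x P)) ≤ _
      omega
    · show hammingNorm (Pi.single j' (if f x = true then ε else 0) + disp (ev x P)) ≤ _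
      by_cases hf : f x = true
      · rw [if_pos hf, if_pos hf]
        have h1 : hammingNorm (Pi.single j' ε + disp (ev x P)) ≤
            hammingNorm (disp (ev x P)) + 1 := by
          unfold hammingNorm
          calc _ ≤ (insert j' (Finset.univ.filter fun i => disp (ev x P) i ≠ 0)).card := by
                apply Finset.card_le_card
                intro i hi
                rw [Finset.mem_insert]
                by_cases hij : i = j'
                · left; exact hij
                · right
                  rw [Finset.mem_filter] at hi ⊢
                  refine ⟨Finset.mem_univ _, ?_⟩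
                  have := hi.2
                  rw [Pi.add_apply, Pi.single_eq_of_ne hij, zero_add] at this
                  exact this
            _ ≤ _ := Finset.card_insert_le _ _
        omega
      · rw [if_neg hf, if_neg hf, Pi.single_zero, zero_add]
        omega

end Pool.Agent.W_MP_458e77_lc
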